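import Pool.Agent.W5h86.LZ.Cx
import Pool.Agent.Y102.AV14

set_option autoImplicit false

/-!
# The real Lie algebra of an abelian variety
-/

open Module Function

noncomputable section

namespace Pool.Agent.W5h86.LZ

open Pool.Agent.Y102 Pool.Agent.W516.DR Pool.Agent.W516.KC

section Dens

variable {V : Type} [AddCommGroup V] [Module ℚ V] [FiniteDimensional ℚ V]

/-- **Double commutant.** -/
theorem mem_adjoin_of_comm {S : Submodule ℚ (Module.End ℚ V)} (hS : Semi S)
    {T : Module.End ℚ V} (hT : ∀ P : Module.End ℚ V, (∀ X ∈ S, X * P = P * X) → T * P = P * T) :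
    T ∈ Algebra.adjoin ℚ (S : Set (Module.End ℚ V)) := by
  set R := Algebra.adjoin ℚ (S : Set (Module.End ℚ V)) with hR
  have hsm : ∀ (r : R) (v : V), r • v = r.1 v := fun r v => rfl
  have hss : IsSemisimpleModule R V := by
    rw [isSemisimpleModule_iff]
    refine ⟨fun N => ?_⟩
    let N' : Submodule ℚ V :=
      { carrier := N
        zero_mem' := N.zero_mem
        add_mem' := fun {a b} ha hb => N.add_mem ha hb
        smul_mem' := fun c v hv => by
          have h1 := N.smul_mem (algebraMap ℚ R c) hv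
          have h2 : (algebraMap ℚ R c) • v = c • v := by
            rw [hsm]
            rfl
          rw [← h2]
          exact h1 }
    obtain ⟨U', hU', hc⟩ := hS N' fun X hX u hu => by
      have h1 := N.smul_mem (⟨X, Algebra.subset_adjoin hX⟩ : R) hu
      exact h1
    have stab : ∀ r ∈ R, ∀ v ∈ U', r v ∈ U' := by
      intro r hr
      refine Algebra.adjoin_induction (p := fun r _ => ∀ v ∈ U', r v ∈ U') ?_ ?_ ?_ ?_ hr
      · intro X hX v hv
        exact hU' X hX v hv
      · intro c v hv
        exact U'.smul_mem c hv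
      · intro a b _ _ ha hb v hv
        exact U'.add_mem (ha v hv) (hb v hv)
      · intro a b _ _ ha hb v hv
        exact ha _ (hb v hv)
    let M : Submodule R V :=
      { carrier := U'
        zero_mem' := U'.zero_mem
        add_mem' := fun {a b} ha hb => U'.add_mem ha hb
        smul_mem' := fun r v hv => stab r.1 r.2 v hv }
    refine ⟨M, ?_⟩
    rw [isCompl_iff, disjoint_iff, codisjoint_iff, eq_bot_iff, eq_top_iff]
    constructor
    · rintro v ⟨hv, hv'⟩
      have h1 : v ∈ N' ⊓ U' := ⟨hv, hv'⟩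
      rw [hc.inf_eq_bot, Submodule.mem_bot] at h1
      rw [h1]
      exact Submodule.zero_mem _
    · intro v _
      have h1 : v ∈ N' ⊔ U' := by rw [hc.sup_eq_top]; exact Submodule.mem_top
      obtain ⟨a, ha, b, hb, rfl⟩ := Submodule.mem_sup.1 h1
      exact Submodule.add_mem _ (Submodule.mem_sup_left ha) (Submodule.mem_sup_right hb)
  let f : Module.End (Module.End R V) V :=
    { toFun := T
      map_add' := fun a b => map_add T a b
      map_smul' := fun g m => by
        let P : Module.End ℚ V :=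
          { toFun := g
            map_add' := fun a b => map_add g a b
            map_smul' := fun c v => by
              have h1 := g.map_smul (algebraMap ℚ R c) v
              have h2 : ∀ w : V, (algebraMap ℚ R c) • w = c • w := fun w => by
                rw [hsm]
                rfl
              rw [h2, h2] at h1
              exact h1 }
        have h1 := hT P fun X hX => by
          refine LinearMap.ext fun v => ?_
          have h2 := g.map_smul (⟨X, Algebra.subset_adjoin hX⟩ : R) v
          exact h2.symm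
        exact LinearMap.congr_fun h1 m }
  obtain ⟨s, hs⟩ := Module.Finite.fg_top (R := ℚ) (M := V)
  obtain ⟨r, hr⟩ := jacobson_density f s
  have h1 : T = r.1 := by
    refine LinearMap.ext fun v => ?_
    have hv : v ∈ Submodule.span ℚ (s : Set V) := by rw [hs]; exact Submodule.mem_top
    induction hv using Submodule.span_induction with
    | mem x hx => exact hr x hx
    | zero => rw [map_zero, map_zero]
    | add a b _ _ ha hb => rw [map_add, map_add, ha, hb]
    | smul c a _ ha => rw [map_smul, map_smul, ha]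
  rw [h1]
  exact r.2

end Dens

variable {g : ℕ} (A : AbVar g) {C : Submodule ℚ (Module.End ℚ A.H1)}

/-- a real endomorphism whose components are in `C` is in the real span of `C` -/
lemma mem_CR_of_cmp {Y : (Fin g → ℂ) →ₗ[ℝ] (Fin g → ℂ)} (h : ∀ f, A.cmpE f Y ∈ C) :
    Y ∈ A.CR C := by
  classical
  let B := Basis.ofVectorSpace ℚ ℝ
  let s : Finset (Basis.ofVectorSpaceIndex ℚ ℝ) := Finset.univ.biUnion fun j : Fin (2 * g) =>
    Finset.univ.biUnion fun i : Fin (2 * g) => (B.repr (A.lam.repr (Y (A.lam j)) i)).support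
  have hx : ∀ x : ℝ, (B.repr x).support ⊆ s → ∑ b ∈ s, B b * ((B.coord b x : ℚ) : ℝ) = x := by
    intro x hxs
    have h1 := B.linearCombination_repr x
    rw [Finsupp.linearCombination_apply, Finsupp.sum_of_support_subset _ hxs] at h1
    · rw [← h1]
      refine Finset.sum_congr rfl fun b _ => ?_
      rw [h1, Basis.coord_apply, Rat.smul_def, mul_comm]
    · intro i _
      rw [zero_smul]
  have h1 : Y = ∑ b ∈ s, B b • A.ext (A.cmpE (B.coord b) Y) := by
    refine A.lam.ext fun j => ?_
    apply A.lam.repr.injective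
    ext i
    rw [LinearMap.sum_apply, map_sum, Finsupp.finsetSum_apply, ← hx (A.lam.repr (Y (A.lam j)) i)]
    · refine Finset.sum_congr rfl fun b _ => ?_
      rw [LinearMap.smul_apply, map_smul, Finsupp.smul_apply, AbVar.ext_lam, AbVar.repr_per,
        AbVar.cmpE_apply, AbVar.cmp_apply, AbVar.per_bas, smul_eq_mul]
    · intro b hb
      exact Finset.mem_biUnion.2 ⟨j, Finset.mem_univ _,
        Finset.mem_biUnion.2 ⟨i, Finset.mem_univ _, hb⟩⟩
  rw [h1]
  exact Submodule.sum_mem _ fun b _ =>
    Submodule.smul_mem _ _ (Submodule.subset_span ⟨_, h _, rfl⟩)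

variable {A}

lemma CR_bracket (hC : ∀ X ∈ C, ∀ Y ∈ C, X * Y - Y * X ∈ C)
    {X Y : (Fin g → ℂ) →ₗ[ℝ] (Fin g → ℂ)} (hX : X ∈ A.CR C) (hY : Y ∈ A.CR C) :
    X.comp Y - Y.comp X ∈ A.CR C := by
  unfold AbVar.CR at hX
  induction hX using Submodule.span_induction with
  | mem X hX =>
    obtain ⟨Q, hQ, rfl⟩ := hX
    unfold AbVar.CR at hY
    induction hY using Submodule.span_induction with
    | mem Y hY =>
      obtain ⟨Q', hQ', rfl⟩ := hY
      refine Submodule.subset_span ⟨_, hC Q hQ Q' hQ', ?_⟩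
      refine A.ext_per fun w => ?_
      rw [LinearMap.sub_apply, LinearMap.comp_apply, LinearMap.comp_apply, AbVar.ext_apply,
        AbVar.ext_apply, AbVar.ext_apply, AbVar.ext_apply, AbVar.ext_apply, LinearMap.sub_apply,
        map_sub]
      rfl
    | zero => rw [LinearMap.comp_zero, LinearMap.zero_comp, sub_zero]; exact Submodule.zero_mem _
    | add a b _ _ ha hb =>
      rw [LinearMap.comp_add, LinearMap.add_comp, add_sub_add_comm]
      exact Submodule.add_mem _ ha hb
    | smul c a _ ha =>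
      rw [LinearMap.comp_smul, LinearMap.smul_comp]
      have h1 := Submodule.smul_mem _ c ha
      rw [smul_sub] at h1
      exact h1
  | zero => rw [LinearMap.comp_zero, LinearMap.zero_comp, sub_zero]; exact Submodule.zero_mem _
  | add a b _ _ ha hb =>
    rw [LinearMap.comp_add, LinearMap.add_comp, add_sub_add_comm]
    exact Submodule.add_mem _ ha hb
  | smul c a _ ha =>
    rw [LinearMap.comp_smul, LinearMap.smul_comp]
    have h1 := Submodule.smul_mem _ c ha
    rw [smul_sub] at h1
    exact h1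

lemma CR_skew (hC : ∀ X ∈ C, IsSkew A.om X) {Y : (Fin g → ℂ) →ₗ[ℝ] (Fin g → ℂ)}
    (hY : Y ∈ A.CR C) (u v : Fin g → ℂ) : A.E (Y u) v + A.E u (Y v) = 0 := by
  unfold AbVar.CR at hY
  induction hY using Submodule.span_induction with
  | mem Y hY =>
    obtain ⟨Q, hQ, rfl⟩ := hY
    have h2 : A.E.comp (A.ext Q) = -(A.E.flip.comp (A.ext Q)).flip := by
      refine A.ext_per fun u => A.ext_per fun v => ?_
      change A.E (A.ext Q (A.per u)) (A.per v) = -A.E (A.per u) (A.ext Q (A.per v))
      rw [AbVar.ext_apply, AbVar.ext_apply, ← AbVar.om_coe, ← AbVar.om_coe, ← Rat.cast_neg]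
      congr 1
      linear_combination hC Q hQ u v
    have h3 : A.E (A.ext Q u) v = -A.E u (A.ext Q v) :=
      congrArg (fun F : (Fin g → ℂ) →ₗ[ℝ] (Fin g → ℂ) →ₗ[ℝ] ℝ => F u v) h2
    rw [h3, neg_add_cancel]
  | zero => simp
  | add a b _ _ ha hb =>
    rw [LinearMap.add_apply, LinearMap.add_apply, map_add, map_add, LinearMap.add_apply]
    linarith
  | smul c a _ ha =>
    rw [LinearMap.smul_apply, LinearMap.smul_apply, map_smul, map_smul, LinearMap.smul_apply,
      ← smul_add, ha, smul_zero]

lemma CR_comm {P : Module.End ℚ A.H1} (hC : ∀ X ∈ C, X * P = P * X)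
    {Y : (Fin g → ℂ) →ₗ[ℝ] (Fin g → ℂ)} (hY : Y ∈ A.CR C) (u : Fin g → ℂ) :
    Y (A.ext P u) = A.ext P (Y u) := by
  unfold AbVar.CR at hY
  induction hY using Submodule.span_induction with
  | mem Y hY =>
    obtain ⟨Q, hQ, rfl⟩ := hY
    have h1 := AbVar.ext_mul (A := A) Q P
    rw [hC Q hQ, AbVar.ext_mul] at h1
    exact (LinearMap.congr_fun h1 u).symm
  | zero => simp
  | add a b _ _ ha hb => rw [LinearMap.add_apply, LinearMap.add_apply, ha, hb, map_add]
  | smul c a _ ha => rw [LinearMap.smul_apply, LinearMap.smul_apply, ha, map_smul]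

lemma trace_cmp (f : ℝ →ₗ[ℚ] ℚ) (Y : (Fin g → ℂ) →ₗ[ℝ] (Fin g → ℂ)) (Z : Module.End ℚ A.H1) :
    f (LinearMap.trace ℝ (Fin g → ℂ) (Y.comp (A.ext Z))) =
      LinearMap.trace ℚ A.H1 (A.cmpE f Y * Z) := by
  rw [LinearMap.trace_eq_matrix_trace ℝ A.lam, LinearMap.trace_eq_matrix_trace ℚ A.bas,
    Matrix.trace, Matrix.trace, map_sum]
  refine Finset.sum_congr rfl fun j _ => ?_
  rw [Matrix.diag_apply, Matrix.diag_apply, LinearMap.toMatrix_apply, LinearMap.toMatrix_apply,
    LinearMap.comp_apply, AbVar.ext_lam, Module.End.mul_apply, AbVar.cmpE_apply]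
  rfl

lemma CR_nd (hC : Pool.Agent.W516.KC2.TraceNondeg C) {Y : (Fin g → ℂ) →ₗ[ℝ] (Fin g → ℂ)}
    (hY : Y ∈ A.CR C)
    (h : ∀ Y' ∈ A.CR C, LinearMap.trace ℝ (Fin g → ℂ) (Y.comp Y') = 0) : Y = 0 := by
  have h1 : ∀ f, A.cmpE f Y = 0 := by
    intro f
    refine hC _ (A.CR_cmp hY f) fun Z hZ => ?_
    rw [← trace_cmp, h _ (Submodule.subset_span ⟨Z, hZ, rfl⟩), map_zero]
  refine A.lam.ext fun j => ?_
  rw [LinearMap.zero_apply]
  refine A.cmp_sep fun f => ?_
  rw [← AbVar.per_bas, ← AbVar.cmpE_apply, h1, LinearMap.zero_apply]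

/-- subspaces which are stable under the Lie algebra -/
lemma stable {P : Module.End ℚ A.H1} (hEA : ∀ Q ∈ A.EA, ∃ a b : ℚ, Q = a • 1 + b • P)
    {W : Submodule ℝ (Fin g → ℂ)} (hW : ∀ Y ∈ A.CR A.LA, ∀ u ∈ W, Y u ∈ W)
    {Y : (Fin g → ℂ) →ₗ[ℝ] (Fin g → ℂ)} (hY : ∀ u, Y (A.ext P u) = A.ext P (Y u)) :
    ∀ u ∈ W, Y u ∈ W := by
  let S : Subalgebra ℚ (Module.End ℚ A.H1) :=
    { carrier := {Z | ∀ u ∈ W, A.ext Z u ∈ W}
      mul_mem' := by
        intro a b ha hb u hu
        rw [AbVar.ext_mul]
        exact ha _ (hb u hu)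
      add_mem' := by
        intro a b ha hb u hu
        have h1 : A.ext (a + b) = A.ext a + A.ext b := A.ext_per fun w => by
          rw [LinearMap.add_apply, AbVar.ext_apply, AbVar.ext_apply, AbVar.ext_apply,
            LinearMap.add_apply, map_add]
        rw [h1]
        exact W.add_mem (ha u hu) (hb u hu)
      algebraMap_mem' := by
        intro r u hu
        have h1 : A.ext (algebraMap ℚ (Module.End ℚ A.H1) r) = (r : ℝ) • LinearMap.id :=
          A.ext_per fun w => by
            rw [AbVar.ext_apply, Module.algebraMap_end_apply, map_smul, LinearMap.smul_apply,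
              LinearMap.id_apply]
            exact (Rat.cast_smul_eq_qsmul ℝ r (A.per w)).symm
        rw [h1]
        exact W.smul_mem _ hu }
  have hS : (A.LA : Set (Module.End ℚ A.H1)) ⊆ S := by
    intro Z hZ u hu
    exact hW _ (Submodule.subset_span ⟨Z, hZ, rfl⟩) u hu
  have h1 : ∀ f, A.cmpE f Y ∈ Subalgebra.toSubmodule S := by
    intro f
    have h2 : A.cmpE f Y ∈ Algebra.adjoin ℚ (A.LA : Set (Module.End ℚ A.H1)) := by
      refine mem_adjoin_of_comm A.semi_LA fun Q hQ => ?_
      obtain ⟨a, b, rfl⟩ := hEA Q hQ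
      have h3 := A.cmpE_comm f hY
      rw [mul_add, add_mul, mul_smul_comm, smul_mul_assoc, mul_smul_comm, smul_mul_assoc, mul_one,
        one_mul, h3]
    exact (Algebra.adjoin_le hS) h2
  have h2 := mem_CR_of_cmp A h1
  intro u hu
  unfold AbVar.CR at h2
  clear hY h1
  induction h2 using Submodule.span_induction with
  | mem Y hY =>
    obtain ⟨Q, hQ, rfl⟩ := hY
    exact hQ u hu
  | zero => exact W.zero_mem
  | add a b _ _ ha hb => exact W.add_mem ha hb
  | smul c a _ ha => exact W.smul_mem _ ha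

end Pool.Agent.W5h86.LZ
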