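import Pool.Agent.W5h86.LZ.Br1

set_option autoImplicit false

/-!
# Abelian varieties with multiplication by an imaginary quadratic field, signature `(1, n - 1)`
-/

open Module Function

noncomputable section

namespace Pool.Agent.W5h86.LZ

open Pool.Agent.Y102 Pool.Agent.W516.DR Pool.Agent.W516.KC

variable {g : ℕ} {A : AbVar g} {P : Module.End ℚ A.H1} {d : ℚ}
  {M : (Fin g → ℂ) →ₗ[ℂ] (Fin g → ℂ)}

lemma ext_eq (hM : ∀ w, M (A.per w) = A.per (P w)) (u : Fin g → ℂ) : A.ext P u = M u := by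
  have h1 : A.ext P = M.restrictScalars ℝ := A.ext_per fun w => by
    rw [AbVar.ext_apply]
    exact (hM w).symm
  rw [h1]
  rfl

lemma sq_eq (hM : ∀ w, M (A.per w) = A.per (P w)) (hP2 : P * P = -(d • 1)) (u : Fin g → ℂ) :
    M (M u) = -((d : ℂ) • u) := by
  have h1 : (M.comp M).restrictScalars ℝ = -((d : ℝ) • LinearMap.id) := A.ext_per fun w => by
    change M (M (A.per w)) = -((d : ℝ) • A.per w)
    rw [hM, hM, ← Module.End.mul_apply, hP2, LinearMap.neg_apply, LinearMap.smul_apply,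
      Module.End.one_apply, map_neg, map_smul]
    rw [Rat.cast_smul_eq_qsmul ℝ d (A.per w)]
  have h2 := LinearMap.congr_fun h1 u
  change M (M u) = -((d : ℝ) • u) at h2
  rw [h2]
  funext i
  simp

/-- the eigenvalue is imaginary -/
lemma eig_eq (hd : 0 < d) (hMM : ∀ u, M (M u) = -((d : ℂ) • u)) {s : ℂ} {u : Fin g → ℂ}
    (hu0 : u ≠ 0) (hu : M u = s • u) : s.re = 0 ∧ s.im ≠ 0 ∧ s.im * s.im = d := by
  have h1 := hMM u
  rw [hu, map_smul, hu, smul_smul, ← neg_smul, ← sub_eq_zero, ← sub_smul] at h1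
  have h2 : s * s = -(d : ℂ) := sub_eq_zero.1 ((smul_eq_zero.1 h1).resolve_right hu0)
  have h3 := congrArg Complex.re h2
  have h4 := congrArg Complex.im h2
  have hdr : (0 : ℝ) < d := by exact_mod_cast hd
  have hdc : ((d : ℂ)).re = (d : ℝ) := by
    rw [← Complex.ofReal_ratCast, Complex.ofReal_re]
  have hdi : ((d : ℂ)).im = 0 := by
    rw [← Complex.ofReal_ratCast, Complex.ofReal_im]
  rw [Complex.mul_re, Complex.neg_re, hdc] at h3
  rw [Complex.mul_im, Complex.neg_im, hdi] at h4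
  have h5 : s.im ≠ 0 := by
    intro h
    rw [h] at h3
    nlinarith [mul_self_nonneg s.re]
  have h6 : s.re = 0 := by
    have h7 : s.re * s.im = 0 := by linarith
    exact (mul_eq_zero.1 h7).resolve_right h5
  refine ⟨h6, h5, ?_⟩
  rw [h6] at h3
  linarith

/-- the multiplication is skew-symmetric for the polarization -/
lemma skew_eq (hM : ∀ w, M (A.per w) = A.per (P w)) (hP : P ∈ A.EA)
    (hEA : ∀ Q ∈ A.EA, ∃ a b : ℚ, Q = a • 1 + b • P) {t : ℝ} (ht : t ≠ 0) {e : Fin g → ℂ}
    (he0 : e ≠ 0) (he : M e = (t * Complex.I : ℂ) • e) (u v : Fin g → ℂ) :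
    A.E (M u) v = -A.E u (M v) := by
  obtain ⟨P', hP', hadj⟩ := A.endAlg.adj P hP
  obtain ⟨a, b, rfl⟩ := hEA P' hP'
  have h1 : ∀ u v, A.E (M u) v = a * A.E u v + b * A.E u (M v) := by
    have h2 : A.E.comp (M.restrictScalars ℝ) = (a : ℝ) • A.E +
        (b : ℝ) • (A.E.flip.comp (M.restrictScalars ℝ)).flip := by
      refine A.ext_per fun u => A.ext_per fun v => ?_
      change A.E (M (A.per u)) (A.per v) = a * A.E (A.per u) (A.per v) +
        b * A.E (A.per u) (M (A.per v))
      rw [hM, hM, ← AbVar.om_coe, ← AbVar.om_coe, ← AbVar.om_coe, hadj, LinearMap.add_apply,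
        LinearMap.smul_apply, LinearMap.smul_apply, Module.End.one_apply, map_add, map_smul,
        map_smul, smul_eq_mul, smul_eq_mul]
      push_cast
      ring
    intro u v
    exact congrArg (fun F : (Fin g → ℂ) →ₗ[ℝ] (Fin g → ℂ) →ₗ[ℝ] ℝ => F u v) h2
  have hself : ∀ x, A.E x x = 0 := fun x => A.E_self x
  have he' : M e = t • (Complex.I • e) := by
    rw [he, mul_smul]
    funext i
    simp
  have hIe : M (Complex.I • e) = -(t • e) := by
    rw [map_smul, he']
    funext i
    simp only [Pi.smul_apply, Pi.neg_apply, smul_eq_mul, Complex.real_smul]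
    linear_combination (t * e i) * Complex.I_sq
  have hsl : ∀ (r : ℝ) x y, A.E (r • x) y = r * A.E x y := fun r x y => by
    rw [map_smul, LinearMap.smul_apply, smul_eq_mul]
  have hsr : ∀ (r : ℝ) x y, A.E x (r • y) = r * A.E x y := fun r x y => by
    rw [map_smul, smul_eq_mul]
  have hpos := A.E_pos he0
  have ha : (a : ℝ) = 0 := by
    have h2 := h1 e (Complex.I • e)
    rw [hIe, he', hsl, hself, map_neg, hsr, hself, mul_zero, neg_zero, mul_zero,
      add_zero] at h2
    exact (mul_eq_zero.1 h2.symm).resolve_right hpos.ne'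
  have hb : (b : ℝ) = -1 := by
    have h2 := h1 e e
    rw [he', hsl, hself, (A.E_I e e).2, hsr, mul_zero, zero_add] at h2
    have h3 : t * A.E e (Complex.I • e) * (b + 1) = 0 := by linarith
    have h4 := (mul_eq_zero.1 h3).resolve_left (mul_ne_zero ht hpos.ne')
    linarith
  rw [h1, ha, hb]
  ring

/-- the conjugation on the coordinates of the second kind -/
def cj {m : ℕ} : Fin 1 ⊕ Fin m → (ℂ ≃ₗ[ℝ] ℂ) :=
  Sum.elim (fun _ => LinearEquiv.refl ℝ ℂ) (fun _ => Complex.conjAe.toLinearEquiv)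

/-- the coordinates -/
def theta {m : ℕ} (e : Basis (Fin 1 ⊕ Fin m) ℂ (Fin g → ℂ)) :
    (Fin 1 ⊕ Fin m → ℂ) ≃ₗ[ℝ] (Fin g → ℂ) :=
  (LinearEquiv.piCongrRight cj).trans (e.equivFun.symm.restrictScalars ℝ)

lemma theta_apply {m : ℕ} (e : Basis (Fin 1 ⊕ Fin m) ℂ (Fin g → ℂ)) (z : Fin 1 ⊕ Fin m → ℂ) :
    theta e z = ∑ i, cj i (z i) • e i := by
  unfold theta
  rw [LinearEquiv.trans_apply]
  exact e.equivFun_symm_apply _

/-- the basis of eigenvectors -/
lemma exists_eigenbasis {s : ℂ} (hs0 : s ≠ 0) (hMM : ∀ u, M (M u) = (s * s) • u)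
    (hs : finrank ℂ (LinearMap.ker (M - s • LinearMap.id)) = 1) :
    ∃ (m : ℕ) (e : Basis (Fin 1 ⊕ Fin m) ℂ (Fin g → ℂ)), m + 1 = g ∧
      M (e (Sum.inl 0)) = s • e (Sum.inl 0) ∧
      ∀ j, M (e (Sum.inr j)) = -(s • e (Sum.inr j)) := by
  set W := LinearMap.ker (M - s • LinearMap.id) with hW
  set W' := LinearMap.ker (M + s • LinearMap.id) with hW'
  have hmem : ∀ u, u ∈ W ↔ M u = s • u := by
    intro u
    rw [hW, LinearMap.mem_ker, LinearMap.sub_apply, LinearMap.smul_apply, LinearMap.id_apply,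
      sub_eq_zero]
  have hmem' : ∀ u, u ∈ W' ↔ M u = -(s • u) := by
    intro u
    rw [hW', LinearMap.mem_ker, LinearMap.add_apply, LinearMap.smul_apply, LinearMap.id_apply,
      add_eq_zero_iff_eq_neg]
  have hc : IsCompl W W' := by
    rw [isCompl_iff, disjoint_iff, codisjoint_iff, eq_bot_iff, eq_top_iff]
    constructor
    · rintro u ⟨h1, h2⟩
      have h1' := (hmem u).1 h1
      have h2' := (hmem' u).1 h2
      rw [h1', eq_neg_iff_add_eq_zero, ← add_smul] at h2'
      have h3 : s + s ≠ 0 := by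
        rw [← two_mul]
        exact mul_ne_zero two_ne_zero hs0
      exact (Submodule.mem_bot ℂ).2 ((smul_eq_zero.1 h2').resolve_left h3)
    · intro u _
      have h1 : (2⁻¹ : ℂ) • u + (2⁻¹ * s⁻¹) • M u ∈ W := by
        rw [hmem, map_add, map_smul, map_smul, hMM, smul_add, smul_smul, smul_smul, smul_smul,
          add_comm]
        congr 1
        · congr 1
          field_simp
        · congr 1
          field_simp
      have h2 : (2⁻¹ : ℂ) • u - (2⁻¹ * s⁻¹) • M u ∈ W' := by
        rw [hmem', map_sub, map_smul, map_smul, hMM, smul_sub, smul_smul, smul_smul, smul_smul,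
          neg_sub]
        congr 1
        · congr 1
          field_simp
        · congr 1
          field_simp
      have h3 : u = ((2⁻¹ : ℂ) • u + (2⁻¹ * s⁻¹) • M u) +
          ((2⁻¹ : ℂ) • u - (2⁻¹ * s⁻¹) • M u) := by
        rw [add_add_sub_cancel, ← add_smul]
        norm_num
      rw [h3]
      exact Submodule.add_mem _ (Submodule.mem_sup_left h1) (Submodule.mem_sup_right h2)
  have hfin : finrank ℂ W + finrank ℂ W' = g := by
    rw [Submodule.finrank_add_eq_of_isCompl hc, finrank_fintype_fun_eq_card, Fintype.card_fin]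
  refine ⟨finrank ℂ W', ((finBasisOfFinrankEq ℂ W hs).prod (finBasis ℂ W')).map
    (Submodule.prodEquivOfIsCompl W W' hc), by omega, ?_, fun j => ?_⟩
  · rw [← hmem, Basis.map_apply, Basis.prod_apply]
    simp
  · rw [← hmem', Basis.map_apply, Basis.prod_apply]
    simp

end Pool.Agent.W5h86.LZ
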