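import Pool.Agent.W5h86.LZ.Br2

set_option autoImplicit false

/-!
# The main theorem for abelian varieties
-/

open Module Function

noncomputable section

namespace Pool.Agent.W5h86.LZ

open Pool.Agent.Y102 Pool.Agent.W516.DR Pool.Agent.W516.KC

variable {g : ℕ} {A : AbVar g} {P : Module.End ℚ A.H1} {d : ℚ}
  {M : (Fin g → ℂ) →ₗ[ℂ] (Fin g → ℂ)} {m : ℕ} {e : Basis (Fin 1 ⊕ Fin m) ℂ (Fin g → ℂ)} {t : ℝ}

/-- the second complex structure -/
def JM (t : ℝ) (M : (Fin g → ℂ) →ₗ[ℂ] (Fin g → ℂ)) : (Fin g → ℂ) →ₗ[ℝ] (Fin g → ℂ) :=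
  t⁻¹ • M.restrictScalars ℝ

lemma JM_apply (u : Fin g → ℂ) : JM t M u = t⁻¹ • M u := rfl

lemma t_JM (ht : t ≠ 0) (u : Fin g → ℂ) : t • JM t M u = M u := by
  rw [JM_apply, smul_smul, mul_inv_cancel₀ ht, one_smul]

lemma JM_inl (ht : t ≠ 0) (he0 : M (e (Sum.inl 0)) = (t * Complex.I : ℂ) • e (Sum.inl 0)) (z : ℂ) :
    JM t M (z • e (Sum.inl 0)) = (Complex.I * z) • e (Sum.inl 0) := by
  have htc : (t : ℂ) ≠ 0 := by exact_mod_cast ht
  rw [JM_apply, map_smul, he0]
  funext i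
  simp only [Pi.smul_apply, smul_eq_mul, Complex.real_smul]
  push_cast
  field_simp

lemma JM_inr (ht : t ≠ 0) (he1 : ∀ j, M (e (Sum.inr j)) = -((t * Complex.I : ℂ) • e (Sum.inr j)))
    (j : Fin m) (z : ℂ) : JM t M (z • e (Sum.inr j)) = -((Complex.I * z) • e (Sum.inr j)) := by
  have htc : (t : ℂ) ≠ 0 := by exact_mod_cast ht
  rw [JM_apply, map_smul, he1]
  funext i
  simp only [Pi.smul_apply, Pi.neg_apply, smul_eq_mul, Complex.real_smul]
  push_cast
  field_simp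

lemma JM_theta (ht : t ≠ 0)
    (he0 : M (e (Sum.inl 0)) = (t * Complex.I : ℂ) • e (Sum.inl 0))
    (he1 : ∀ j, M (e (Sum.inr j)) = -((t * Complex.I : ℂ) • e (Sum.inr j)))
    (z : Fin 1 ⊕ Fin m → ℂ) : theta e (Complex.I • z) = JM t M (theta e z) := by
  rw [theta_apply, theta_apply, map_sum]
  refine Finset.sum_congr rfl fun i _ => ?_
  rcases i with i | j
  · have hi : i = 0 := Subsingleton.elim _ _
    subst hi
    rw [JM_inl ht he0]
    rfl
  · rw [JM_inr ht he1]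
    have h1 : cj (Sum.inr j : Fin 1 ⊕ Fin m) ((Complex.I • z) (Sum.inr j)) =
        -(Complex.I * cj (Sum.inr j : Fin 1 ⊕ Fin m) (z (Sum.inr j))) := by
      change (starRingEnd ℂ) (Complex.I * z (Sum.inr j)) =
        -(Complex.I * (starRingEnd ℂ) (z (Sum.inr j)))
      rw [map_mul, Complex.conj_I]
      ring
    rw [h1, neg_smul]

lemma JM_neg (ht : t ≠ 0)
    (he1 : ∀ j, M (e (Sum.inr j)) = -((t * Complex.I : ℂ) • e (Sum.inr j)))
    {z : Fin 1 ⊕ Fin m → ℂ} (hz : z (Sum.inl 0) = 0) :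
    JM t M (theta e z) = -(Complex.I • theta e z) := by
  rw [theta_apply, map_sum, Finset.smul_sum, ← Finset.sum_neg_distrib]
  refine Finset.sum_congr rfl fun i _ => ?_
  rcases i with i | j
  · have hi : i = 0 := Subsingleton.elim _ _
    subst hi
    rw [hz, map_zero, zero_smul, map_zero, smul_zero, neg_zero]
  · rw [JM_inr ht he1, smul_smul]

lemma theta_ee : theta e (ee (Sum.inl 0)) = e (Sum.inl 0) := by
  rw [theta_apply, Finset.sum_eq_single (Sum.inl 0)]
  · rw [ee_same]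
    change (1 : ℂ) • e (Sum.inl 0) = _
    rw [one_smul]
  · intro i _ hi
    rw [ee_ne hi, map_zero, zero_smul]
  · intro h
    exact absurd (Finset.mem_univ _) h

/-- the data of the theorem in coordinates -/
structure Setup (A : AbVar g) (P : Module.End ℚ A.H1) (M : (Fin g → ℂ) →ₗ[ℂ] (Fin g → ℂ))
    (e : Basis (Fin 1 ⊕ Fin m) ℂ (Fin g → ℂ)) (t : ℝ) : Prop where
  ht : t ≠ 0
  hM : ∀ w, M (A.per w) = A.per (P w)
  hMM : ∀ u, M (M u) = -((t * t) • u)
  he0 : M (e (Sum.inl 0)) = (t * Complex.I : ℂ) • e (Sum.inl 0)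
  he1 : ∀ j, M (e (Sum.inr j)) = -((t * Complex.I : ℂ) • e (Sum.inr j))
  hP : P ∈ A.EA
  hEA : ∀ Q ∈ A.EA, ∃ a b : ℚ, Q = a • 1 + b • P

lemma Setup.cx (h : Setup A P M e t) : Cx A.E (JM t M) (theta e) := by
  refine ⟨JM_theta h.ht h.he0 h.he1, A.E_self, fun u v => ?_⟩
  have hsk := skew_eq h.hM h.hP h.hEA h.ht (e.ne_zero (Sum.inl 0)) h.he0
  have hsl : ∀ (r : ℝ) x y, A.E (r • x) y = r * A.E x y := fun r x y => by
    rw [map_smul, LinearMap.smul_apply, smul_eq_mul]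
  have hsr : ∀ (r : ℝ) x y, A.E x (r • y) = r * A.E x y := fun r x y => by
    rw [map_smul, smul_eq_mul]
  rw [JM_apply, JM_apply, hsl, hsr, hsk, h.hMM, map_neg, hsr]
  have ht := h.ht
  field_simp

lemma Setup.JM_comm (h : Setup A P M e t) {Y : (Fin g → ℂ) →ₗ[ℝ] (Fin g → ℂ)}
    (hY : Y ∈ A.CR A.LA) (v : Fin g → ℂ) : Y (JM t M v) = JM t M (Y v) := by
  have h1 := CR_comm (A := A) (C := A.LA) (P := P) (fun X hX => h.hP X hX) hY v
  rw [ext_eq h.hM, ext_eq h.hM] at h1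
  rw [JM_apply, JM_apply, map_smul, h1]

/-- the Lie algebra in coordinates -/
theorem Setup.lieData (h : Setup A P M e t) :
    LieData ((A.CR A.LA).comap (tr (theta e))) (Hm A.E (JM t M) (theta e)) := by
  refine LZ.lieData h.cx (fun X hX Y hY => CR_bracket (fun X hX Y hY => A.LA_bracket hX hY) hX hY)
    (fun Y hY => CR_skew (fun X hX => A.LA_skew hX) hY) (fun Y hY => h.JM_comm hY) ?_
    (fun Y hY => CR_nd A.trace_LA hY)
  intro N hN X u hu
  let W : Submodule ℝ (Fin g → ℂ) :=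
    (N.restrictScalars ℝ).comap ((theta e).symm : (Fin g → ℂ) →ₗ[ℝ] (Fin 1 ⊕ Fin m → ℂ))
  have hW : ∀ v, v ∈ W ↔ (theta e).symm v ∈ N := fun v => Iff.rfl
  have h1 : ∀ Y ∈ A.CR A.LA, ∀ v ∈ W, Y v ∈ W := by
    intro Y hY v hv
    obtain ⟨X', rfl⟩ := exists_tr h.cx (h.JM_comm hY)
    obtain ⟨z, rfl⟩ := (theta e).surjective v
    rw [hW, LinearEquiv.symm_apply_apply] at hv
    rw [hW, tr_theta, LinearEquiv.symm_apply_apply]
    exact hN X' hY z hv
  have h2 := stable h.hEA h1 (Y := tr (theta e) X) (fun v => by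
    rw [ext_eq h.hM, ext_eq h.hM, ← t_JM h.ht, ← t_JM h.ht (tr (theta e) X v), map_smul,
      tr_Jc h.cx])
  have h3 := h2 (theta e u) (by
    rw [hW, LinearEquiv.symm_apply_apply]
    exact hu)
  rw [hW, tr_theta, LinearEquiv.symm_apply_apply] at h3
  exact h3

/-- orthogonality of the eigenspaces -/
lemma Setup.orth (h : Setup A P M e t) {z : Fin 1 ⊕ Fin m → ℂ} (hz : z (Sum.inl 0) = 0) :
    A.E (e (Sum.inl 0)) (theta e z) = 0 := by
  have h1 := h.cx.inv (e (Sum.inl 0)) (theta e z)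
  have h2 := JM_inl (e := e) h.ht h.he0 1
  rw [one_smul, mul_one] at h2
  rw [h2, JM_neg h.ht h.he1 hz, map_neg, (A.E_I _ _).1] at h1
  linarith

lemma Setup.hf_zero (h : Setup A P M e t) {z : Fin 1 ⊕ Fin m → ℂ} (hz : z (Sum.inl 0) = 0) :
    hf (Hm A.E (JM t M) (theta e)) (ee (Sum.inl 0)) z = 0 := by
  rw [hf_Hm h.cx, theta_ee, h.orth hz, ← h.cx.theta, h.orth]
  · simp
  · rw [Pi.smul_apply, hz, smul_zero]

lemma Setup.hf_self (h : Setup A P M e t) :
    hf (Hm A.E (JM t M) (theta e)) (ee (Sum.inl 0)) (ee (Sum.inl 0)) =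
      (A.E (e (Sum.inl 0)) (Complex.I • e (Sum.inl 0)) : ℂ) := by
  have h2 := JM_inl (e := e) h.ht h.he0 1
  rw [one_smul, mul_one] at h2
  rw [hf_Hm h.cx, theta_ee, h2, A.E_self]
  simp

lemma Setup.pos (_h : Setup A P M e t) :
    0 < A.E (e (Sum.inl 0)) (Complex.I • e (Sum.inl 0)) := A.E_pos (e.ne_zero _)

lemma Setup.neg (h : Setup A P M e t) {v : Fin 1 ⊕ Fin m → ℂ} (hv0 : v ≠ 0)
    (hv : hf (Hm A.E (JM t M) (theta e)) (ee (Sum.inl 0)) v = 0) :
    qf (Hm A.E (JM t M) (theta e)) v < 0 := by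
  have h1 : v = (v - v (Sum.inl 0) • ee (Sum.inl 0)) + v (Sum.inl 0) • ee (Sum.inl 0) := by
    rw [sub_add_cancel]
  have h2 : (v - v (Sum.inl 0) • ee (Sum.inl 0) : Fin 1 ⊕ Fin m → ℂ) (Sum.inl 0) = 0 := by
    rw [Pi.sub_apply, Pi.smul_apply, ee_same, smul_eq_mul, mul_one, sub_self]
  have h3 : v (Sum.inl 0) = 0 := by
    rw [h1, hf_add_right, h.hf_zero h2, hf_smul_right, h.hf_self, zero_add] at hv
    refine (mul_eq_zero.1 hv).resolve_right ?_
    exact_mod_cast h.pos.ne'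
  have h4 : theta e v ≠ 0 := by
    intro h5
    apply hv0
    apply (theta e).injective
    rw [h5, map_zero]
  rw [qf_eq, hf_Hm h.cx, JM_neg h.ht h.he1 h3, map_neg, A.E_self]
  have h5 := A.E_pos h4
  simp only [Complex.ofReal_neg, Complex.ofReal_zero, mul_zero, add_zero, Complex.neg_re,
    Complex.ofReal_re]
  linarith

theorem Setup.lor (h : Setup A P M e t) : Lor (Hm A.E (JM t M) (theta e)) :=
  ⟨ee (Sum.inl 0), fun _ hv0 hv => h.neg hv0 hv⟩

theorem Setup.det (h : Setup A P M e t) : (Hm A.E (JM t M) (theta e)).det ≠ 0 := by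
  intro h0
  obtain ⟨v, hv0, hv⟩ := Matrix.exists_mulVec_eq_zero_iff.2 h0
  have h1 := h.neg hv0 (by
    unfold hf
    rw [hv, dotProduct_zero])
  rw [qf_eq] at h1
  unfold hf at h1
  rw [hv, dotProduct_zero, Complex.zero_re] at h1
  exact lt_irrefl _ h1

theorem Setup.qf_pos (h : Setup A P M e t) :
    0 < qf (Hm A.E (JM t M) (theta e)) (ee (Sum.inl 0)) := by
  rw [qf_eq, h.hf_self, Complex.ofReal_re]
  exact h.pos

/-- the real basis -/
theorem exists_real_basis {ι V : Type} [Fintype ι] [DecidableEq ι] [AddCommGroup V] [Module ℝ V]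
    (θ : (ι → ℂ) ≃ₗ[ℝ] V) {H : Matrix ι ι ℂ} {B : ι → ι → ℂ} {σ : ι → ℝ} (hσ : ∀ i, σ i ≠ 0)
    (hB : ∀ i j, hf H (B i) (B j) = if i = j then (σ i : ℂ) else 0) :
    ∃ b : Basis (ι × Fin 2) ℝ V, (∀ i, b (i, 0) = θ (B i)) ∧
      ∀ i, b (i, 1) = θ (Complex.I • B i) := by
  have hli : LinearIndependent ℂ B := by
    rw [Fintype.linearIndependent_iff]
    intro c hc i
    have h1 : hf H (B i) (∑ j, c j • B j) = c i * σ i := by
      have h2 : ∀ s : Finset ι, hf H (B i) (∑ j ∈ s, c j • B j) =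
          ∑ j ∈ s, c j * hf H (B i) (B j) := by
        intro s
        induction s using Finset.induction_on with
        | empty => rw [Finset.sum_empty, Finset.sum_empty, hf_zero_right]
        | insert a s ha ih =>
          rw [Finset.sum_insert ha, Finset.sum_insert ha, hf_add_right, hf_smul_right, ih]
      rw [h2, Finset.sum_eq_single i]
      · rw [hB, if_pos rfl]
      · intro j _ hj
        rw [hB, if_neg (Ne.symm hj), mul_zero]
      · intro h
        exact absurd (Finset.mem_univ _) h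
    rw [hc, hf_zero_right] at h1
    refine (mul_eq_zero.1 h1.symm).resolve_right ?_
    exact_mod_cast hσ i
  have hcard : Fintype.card ι = finrank ℂ (ι → ℂ) := by rw [finrank_fintype_fun_eq_card]
  by_cases hne : Nonempty ι
  · let bC := basisOfLinearIndependentOfCardEqFinrank hli hcard
    have hbC : ∀ i, bC i = B i := fun i => by
      rw [coe_basisOfLinearIndependentOfCardEqFinrank]
    refine ⟨((Complex.basisOneI.smulTower bC).reindex (Equiv.prodComm (Fin 2) ι)).map θ,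
      fun i => ?_, fun i => ?_⟩
    · rw [Basis.map_apply, Basis.reindex_apply]
      simp [hbC]
    · rw [Basis.map_apply, Basis.reindex_apply]
      simp [hbC]
  · rw [not_nonempty_iff] at hne
    refine ⟨(Basis.empty _).map θ, fun i => hne.elim i, fun i => hne.elim i⟩

end Pool.Agent.W5h86.LZ
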