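import Pool.Agent.W5h86.LZ.Br3

set_option autoImplicit false

/-!
# De Rham-Betti classes are multiples of the powers of the polarization
-/

open Module Function

noncomputable section

namespace Pool.Agent.W5h86.LZ

open Pool.Agent.Y102 Pool.Agent.W516.DR Pool.Agent.W516.KC

variable {g : ℕ} {A : AbVar g} {P : Module.End ℚ A.H1} {d : ℚ}
  {M : (Fin g → ℂ) →ₗ[ℂ] (Fin g → ℂ)} {m : ℕ} {e : Basis (Fin 1 ⊕ Fin m) ℂ (Fin g → ℂ)} {t : ℝ}

/-- the `k`-th power of the polarization, as an alternating form in `2 k` variables -/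
def Om (A : AbVar g) (k : ℕ) (v : Fin k × Fin 2 → A.H1) : ℚ :=
  ∑ σ : Equiv.Perm (Fin k × Fin 2), ((Equiv.Perm.sign σ : ℤ) : ℚ) *
    ∏ l, A.om (v (σ (l, 0))) (v (σ (l, 1)))

lemma Om_coe (k : ℕ) (v : Fin k × Fin 2 → A.H1) :
    ((Om A k v : ℚ) : ℝ) = pw A.E k (fun r => A.per (v r)) := by
  rw [pw_apply]
  unfold Om
  push_cast
  refine Finset.sum_congr rfl fun σ _ => ?_
  congr 1
  refine Finset.prod_congr rfl fun l _ => ?_
  rw [AbVar.om_coe]

/-- the alternating real form -/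
lemma alt_Phi {k : ℕ} (φ : A.H1 [⋀^Fin k × Fin 2]→ₗ[ℚ] ℚ) (v : Fin k × Fin 2 → A.H1) :
    MultilinearMap.alternatization (A.Phi φ.toMultilinearMap) (fun r => A.per (v r)) =
      (Fintype.card (Equiv.Perm (Fin k × Fin 2)) : ℝ) * φ v := by
  rw [MultilinearMap.alternatization_apply]
  have h1 : ∀ σ : Equiv.Perm (Fin k × Fin 2),
      Equiv.Perm.sign σ • (MultilinearMap.domDomCongr σ (A.Phi φ.toMultilinearMap))
        (fun r => A.per (v r)) = (φ v : ℝ) := by
    intro σ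
    rw [MultilinearMap.domDomCongr_apply, AbVar.Phi_per]
    have h2 : φ.toMultilinearMap (fun i => v (σ i)) = Equiv.Perm.sign σ • φ v := φ.map_perm v σ
    rw [h2]
    rcases Int.units_eq_one_or (Equiv.Perm.sign σ) with h3 | h3
    · rw [h3, one_smul, one_smul]
    · rw [h3, Units.neg_smul, Units.neg_smul, one_smul, one_smul, Rat.cast_neg, neg_neg]
  rw [Finset.sum_congr rfl fun σ _ => h1 σ, Finset.sum_const, Finset.card_univ, nsmul_eq_mul]

/-- **The main theorem, with the coordinates.** -/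
theorem Setup.main (h : Setup A P M e t) (hm : 2 ≤ m) {k : ℕ} (hk : 2 * k ≠ m + 1)
    (φ : A.H1 [⋀^Fin k × Fin 2]→ₗ[ℚ] ℚ)
    (hφ : IsDeRhamBettiForm QBar A.dR tau k φ.toMultilinearMap) :
    ∃ c : ℚ, ∀ v, φ v = c * Om A k v := by
  classical
  obtain ⟨B, σ, hσ, hB, hG⟩ := exists_basis h.lieData h.lor h.det h.qf_pos
    (p := Sum.inl 0) (q := Sum.inr ⟨0, by omega⟩) (r := Sum.inr ⟨1, by omega⟩) (by simp) (by simp)
    (by simp)
  obtain ⟨b, hb0, hb1⟩ := exists_real_basis (theta e) hσ hB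
  have hbT : ∀ (T : Matrix (Fin 1 ⊕ Fin m) (Fin 1 ⊕ Fin m) ℂ) (i j) (c : ℝ),
      T.mulVec (B i) = (c : ℂ) • B j → ∀ ε, tr (theta e) T (b (i, ε)) = c • b (j, ε) := by
    intro T i j c hT ε
    have hε : ε = 0 ∨ ε = 1 := by
      revert ε
      decide
    have hreal : ∀ z : Fin 1 ⊕ Fin m → ℂ, (c : ℂ) • z = c • z := by
      intro z
      funext x
      simp
    rcases hε with rfl | rfl
    · rw [hb0, hb0, tr_theta, hT, hreal, map_smul]
    · rw [hb1, hb1, tr_theta, Matrix.mulVec_smul, hT, hreal, smul_comm, map_smul]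
  set K : Set ((Fin g → ℂ) →ₗ[ℝ] (Fin g → ℂ)) := {Y | Y ∈ A.CR A.LA} with hK
  have hex : ExchK b K := by
    intro i j hij
    obtain ⟨T, hT, c, -, h1, h2, h3⟩ := hG i j hij
    refine ⟨tr (theta e) T, hT, c, fun ε => ?_, hbT T i j c h2, fun k hk1 hk2 ε => ?_⟩
    · have h4 := hbT T j i 1 (by rw [h1, Complex.ofReal_one, one_smul]) ε
      rw [one_smul] at h4
      exact h4
    · have h4 := hbT T k k 0 (by rw [h3 k hk1 hk2, Complex.ofReal_zero, zero_smul]) ε
      rw [zero_smul] at h4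
      exact h4
  have hkill : ∀ T ∈ K, Kills T (MultilinearMap.alternatization (A.Phi φ.toMultilinearMap)) := by
    intro Y hY
    refine kills_alternatization fun u => ?_
    exact A.Phi_kills φ.toMultilinearMap Y
      (fun f v => AbVar.kills_of_mem A hφ (A.CR_cmp hY f) v) u
  have hkill2 : ∀ T ∈ K, Kills T (pw A.E k) := fun Y hY =>
    kills_pw (fun u v => CR_skew (fun X hX => A.LA_skew hX) hY u v) k
  have hIm : ∀ z w, A.E (theta e z) (theta e w) =
      (hf (Hm A.E (JM t M) (theta e)) z w).im := by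
    intro z w
    rw [hf_Hm h.cx]
    simp
  have h0 : ∀ i j, i ≠ j → ∀ ε δ, A.E (b (i, ε)) (b (j, δ)) = 0 := by
    intro i j hij ε δ
    have hε : ∀ ε : Fin 2, ε = 0 ∨ ε = 1 := by decide
    have h1 := hB i j
    rw [if_neg hij] at h1
    rcases hε ε with rfl | rfl <;> rcases hε δ with rfl | rfl
    · rw [hb0, hb0, hIm, h1, Complex.zero_im]
    · rw [hb0, hb1, hIm, hf_smul_right, h1, mul_zero, Complex.zero_im]
    · rw [hb0, hb1, hIm, hf_smul_left, h1, mul_zero, Complex.zero_im]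
    · rw [hb1, hb1, hIm, hf_smul_right, hf_smul_left, h1, mul_zero, mul_zero, Complex.zero_im]
  have h1 : ∀ i, A.E (b (i, 0)) (b (i, 1)) ≠ 0 := by
    intro i
    rw [hb0, hb1, hIm, hf_smul_right, hB, if_pos rfl, Complex.mul_im, Complex.I_re, Complex.I_im,
      Complex.ofReal_re, Complex.ofReal_im, mul_zero, one_mul, zero_add]
    exact hσ i
  obtain ⟨c, hc⟩ := unique b hex (k := k) (by
    rw [Fintype.card_sum, Fintype.card_fin, Fintype.card_fin, add_comm]
    exact hk) _ (pw A.E k) hkill hkill2 (fun α hα => pw_ne_zero A.E_self h0 h1 hα)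
  set N : ℚ := (Fintype.card (Equiv.Perm (Fin k × Fin 2)) : ℚ) with hN
  have hN0 : N ≠ 0 := by
    rw [hN]
    exact_mod_cast Fintype.card_ne_zero
  have hval : ∀ v, ((N * φ v : ℚ) : ℝ) = c * ((Om A k v : ℚ) : ℝ) := by
    intro v
    have h2 := congrArg (fun F : (Fin g → ℂ) [⋀^Fin k × Fin 2]→ₗ[ℝ] ℝ =>
      F (fun r => A.per (v r))) hc
    simp only [AlternatingMap.smul_apply, smul_eq_mul] at h2
    rw [alt_Phi, ← Om_coe] at h2
    rw [← h2, hN]
    push_cast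
    rfl
  by_cases hne : ∃ v, Om A k v ≠ 0
  · obtain ⟨v₀, hv₀⟩ := hne
    refine ⟨φ v₀ / Om A k v₀, fun v => ?_⟩
    have h2 := hval v
    have h3 := hval v₀
    have hv₀' : ((Om A k v₀ : ℚ) : ℝ) ≠ 0 := by exact_mod_cast hv₀
    have h4 : ((N * (φ v * Om A k v₀) : ℚ) : ℝ) = ((N * (φ v₀ * Om A k v) : ℚ) : ℝ) := by
      push_cast at h2 h3 ⊢
      linear_combination (Om A k v₀ : ℝ) * h2 - (Om A k v : ℝ) * h3
    have h5 : N * (φ v * Om A k v₀) = N * (φ v₀ * Om A k v) := by exact_mod_cast h4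
    have h6 := mul_left_cancel₀ hN0 h5
    field_simp
    exact h6
  · push Not at hne
    refine ⟨0, fun v => ?_⟩
    have h2 := hval v
    rw [hne v, Rat.cast_zero, mul_zero] at h2
    have h3 : N * φ v = 0 := by exact_mod_cast h2
    rw [zero_mul]
    exact (mul_eq_zero.1 h3).resolve_left hN0

/-- **The main theorem.** -/
theorem main {n : ℕ} (hn : 3 ≤ n) (A : AbVar n) {P : Module.End ℚ A.H1} {d : ℚ} (hd : 0 < d)
    (hP : P ∈ A.EA) (hP2 : P * P = -(d • 1)) (hEA : ∀ Q ∈ A.EA, ∃ a b : ℚ, Q = a • 1 + b • P)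
    {M : (Fin n → ℂ) →ₗ[ℂ] (Fin n → ℂ)} (hM : ∀ w, M (A.per w) = A.per (P w)) {s : ℂ}
    (hs : finrank ℂ (LinearMap.ker (M - s • LinearMap.id)) = 1) {k : ℕ} (hk : 2 * k ≠ n)
    (φ : A.H1 [⋀^Fin k × Fin 2]→ₗ[ℚ] ℚ)
    (hφ : IsDeRhamBettiForm QBar A.dR tau k φ.toMultilinearMap) :
    ∃ c : ℚ, ∀ v, φ v = c * Om A k v := by
  have hMM := sq_eq hM hP2
  obtain ⟨u, hu0, hu⟩ : ∃ u, u ≠ 0 ∧ M u = s • u := by
    have h1 : LinearMap.ker (M - s • LinearMap.id) ≠ ⊥ := by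
      intro h
      rw [h, finrank_bot] at hs
      exact zero_ne_one hs
    obtain ⟨u, hu, hu0⟩ := Submodule.exists_mem_ne_zero_of_ne_bot h1
    refine ⟨u, hu0, ?_⟩
    rw [LinearMap.mem_ker, LinearMap.sub_apply, LinearMap.smul_apply, LinearMap.id_apply,
      sub_eq_zero] at hu
    exact hu
  obtain ⟨hs1, hs2, hs3⟩ := eig_eq hd hMM hu0 hu
  have hs4 : s = s.im * Complex.I := by
    apply Complex.ext
    · simp [hs1]
    · simp
  have hs0 : s ≠ 0 := by
    intro h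
    rw [h] at hs2
    exact hs2 rfl
  obtain ⟨m, e, hm, he0, he1⟩ := exists_eigenbasis hs0 (fun u => by
    rw [hMM, ← neg_smul]
    congr 1
    rw [hs4]
    have h1 : ((s.im * s.im : ℝ) : ℂ) = (d : ℂ) := by rw [hs3, Complex.ofReal_ratCast]
    push_cast at h1
    linear_combination h1 - (s.im : ℂ) * s.im * Complex.I_sq) hs
  have hset : Setup A P M e s.im := by
    refine ⟨hs2, hM, fun u => ?_, ?_, fun j => ?_, hP, hEA⟩
    · rw [hMM, hs3]
      funext i
      simp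
    · rw [he0, ← hs4]
    · rw [he1, ← hs4]
  exact hset.main (by omega) (by omega) φ hφ

end Pool.Agent.W5h86.LZ
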