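import Pool.Agent.W5h86.LZ.Onb
import Pool.Agent.W5h86.LZ.Uniq

set_option autoImplicit false

/-!
# Real vector spaces with a complex structure and a form
-/

open Module Matrix

namespace Pool.Agent.W5h86.LZ

variable {ι : Type} [Fintype ι] [DecidableEq ι] {V : Type} [AddCommGroup V] [Module ℝ V]

/-- A form and a complex structure on the real space `V`, with coordinates. -/
structure Cx (E : V →ₗ[ℝ] V →ₗ[ℝ] ℝ) (Jc : V →ₗ[ℝ] V) (θ : (ι → ℂ) ≃ₗ[ℝ] V) : Prop where
  theta : ∀ z, θ (Complex.I • z) = Jc (θ z)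
  alt : ∀ u, E u u = 0
  inv : ∀ u v, E (Jc u) (Jc v) = E u v

/-- the matrix of the hermitian form -/
noncomputable def Hm (E : V →ₗ[ℝ] V →ₗ[ℝ] ℝ) (Jc : V →ₗ[ℝ] V) (θ : (ι → ℂ) ≃ₗ[ℝ] V) :
    Matrix ι ι ℂ :=
  Matrix.of fun i j => (E (θ (ee i)) (Jc (θ (ee j))) : ℂ) +
    Complex.I * (E (θ (ee i)) (θ (ee j)) : ℂ)

lemma sesq {F : (ι → ℂ) → (ι → ℂ) → ℂ} (h1 : ∀ u v w, F (u + v) w = F u w + F v w)
    (h2 : ∀ u v w, F u (v + w) = F u v + F u w) (h3 : ∀ (c : ℂ) u v, F (c • u) v = star c * F u v)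
    (h4 : ∀ (c : ℂ) u v, F u (c • v) = c * F u v) (z w : ι → ℂ) :
    F z w = hf (Matrix.of fun i j => F (ee i) (ee j)) z w := by
  have h5 : ∀ (s : Finset ι) (x : ι → ι → ℂ) v, F (∑ i ∈ s, x i) v = ∑ i ∈ s, F (x i) v := by
    intro s x v
    induction s using Finset.induction_on with
    | empty =>
      have h := h3 0 0 v
      rw [zero_smul, star_zero, zero_mul] at h
      simpa using h
    | insert a s ha ih => rw [Finset.sum_insert ha, Finset.sum_insert ha, h1, ih]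
  have h6 : ∀ (s : Finset ι) (x : ι → ι → ℂ) v, F v (∑ i ∈ s, x i) = ∑ i ∈ s, F v (x i) := by
    intro s x v
    induction s using Finset.induction_on with
    | empty =>
      have h := h4 0 v 0
      rw [zero_smul, zero_mul] at h
      simpa using h
    | insert a s ha ih => rw [Finset.sum_insert ha, Finset.sum_insert ha, h2, ih]
  conv_lhs => rw [pi_eq_sum_univ' z, pi_eq_sum_univ' w]
  rw [h5]
  unfold hf dotProduct
  refine Finset.sum_congr rfl fun i _ => ?_
  rw [h3, h6]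
  unfold mulVec dotProduct
  simp only [of_apply, Pi.star_apply]
  congr 1
  refine Finset.sum_congr rfl fun j _ => ?_
  rw [h4, mul_comm]

variable {E : V →ₗ[ℝ] V →ₗ[ℝ] ℝ} {Jc : V →ₗ[ℝ] V} {θ : (ι → ℂ) ≃ₗ[ℝ] V}

omit [Fintype ι] [DecidableEq ι] in
lemma Cx.anti (h : Cx E Jc θ) (u v : V) : E u v = -E v u := Pool.Agent.Y519.AS.anti h.alt u v

omit [Fintype ι] [DecidableEq ι] in
lemma Cx.sq (h : Cx E Jc θ) (u : V) : Jc (Jc u) = -u := by
  obtain ⟨z, rfl⟩ := θ.surjective u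
  rw [← h.theta, ← h.theta, smul_smul, Complex.I_mul_I, neg_one_smul, map_neg]

omit [Fintype ι] [DecidableEq ι] in
lemma theta_smul (h : Cx E Jc θ) (c : ℂ) (z : ι → ℂ) :
    θ (c • z) = c.re • θ z + c.im • Jc (θ z) := by
  have h1 : c • z = c.re • z + c.im • (Complex.I • z) := by
    funext i
    simp only [Pi.smul_apply, Pi.add_apply, smul_eq_mul, Complex.real_smul]
    conv_lhs => rw [← Complex.re_add_im c]
    ring
  rw [h1, map_add, map_smul, map_smul, h.theta]

lemma hf_Hm (h : Cx E Jc θ) (z w : ι → ℂ) :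
    hf (Hm E Jc θ) z w = (E (θ z) (Jc (θ w)) : ℂ) + Complex.I * (E (θ z) (θ w) : ℂ) := by
  have hJ : ∀ u v, E (Jc u) v = -E u (Jc v) := by
    intro u v
    have h1 := h.inv u (Jc v)
    rw [h.sq, map_neg] at h1
    linarith
  symm
  refine sesq (F := fun z w => (E (θ z) (Jc (θ w)) : ℂ) + Complex.I * (E (θ z) (θ w) : ℂ))
    ?_ ?_ ?_ ?_ z w
  · intro u v w
    simp only [map_add, LinearMap.add_apply, Complex.ofReal_add]
    ring
  · intro u v w
    simp only [map_add, Complex.ofReal_add]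
    ring
  · intro c u v
    simp only [theta_smul h, map_add, map_smul, LinearMap.add_apply, LinearMap.smul_apply,
      smul_eq_mul, hJ, h.sq, map_neg, Complex.ofReal_add, Complex.ofReal_mul, Complex.ofReal_neg]
    have hc : star c = (c.re : ℂ) - c.im * Complex.I := by
      rw [Complex.star_def]
      apply Complex.ext <;> simp
    rw [hc]
    linear_combination ((c.im : ℂ) * (E (θ u) (θ v) : ℂ)) * Complex.I_sq
  · intro c u v
    simp only [theta_smul h, map_add, map_smul, smul_eq_mul, h.sq, smul_neg, map_neg,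
      Complex.ofReal_add, Complex.ofReal_mul, Complex.ofReal_neg]
    conv_rhs => rw [← Complex.re_add_im c]
    linear_combination (-(c.im : ℂ) * (E (θ u) (θ v) : ℂ)) * Complex.I_sq

omit [Fintype ι] in
lemma Hm_herm (h : Cx E Jc θ) : (Hm E Jc θ).IsHermitian := by
  have hJ : ∀ u v, E (Jc u) v = -E u (Jc v) := by
    intro u v
    have h1 := h.inv u (Jc v)
    rw [h.sq, map_neg] at h1
    linarith
  ext i j
  rw [conjTranspose_apply]
  unfold Hm
  rw [of_apply, of_apply, h.anti (θ (ee j)) (θ (ee i)), h.anti (θ (ee j)) (Jc (θ (ee i))), hJ]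
  rw [Complex.star_def, map_add, map_mul, Complex.conj_ofReal, Complex.conj_ofReal,
    Complex.conj_I]
  push_cast
  ring

/-- transport of matrices -/
noncomputable def tr (θ : (ι → ℂ) ≃ₗ[ℝ] V) : Matrix ι ι ℂ →ₗ[ℝ] (V →ₗ[ℝ] V) where
  toFun X := (θ.toLinearMap.comp (X.mulVecLin.restrictScalars ℝ)).comp θ.symm.toLinearMap
  map_add' X Y := by
    refine LinearMap.ext fun v => ?_
    simp only [LinearMap.comp_apply, LinearEquiv.coe_coe, LinearMap.coe_restrictScalars,
      mulVecLin_apply, LinearMap.add_apply, map_add]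
  map_smul' c X := by
    refine LinearMap.ext fun v => ?_
    simp only [LinearMap.comp_apply, LinearEquiv.coe_coe, LinearMap.coe_restrictScalars,
      mulVecLin_apply, LinearMap.smul_apply, smul_mulVec, map_smul, RingHom.id_apply]

omit [DecidableEq ι] in
lemma tr_theta (X : Matrix ι ι ℂ) (z : ι → ℂ) : tr θ X (θ z) = θ (X *ᵥ z) := by
  unfold tr
  simp

omit [DecidableEq ι] in
lemma tr_mul (X Y : Matrix ι ι ℂ) : tr θ (X * Y) = (tr θ X).comp (tr θ Y) := by
  refine LinearMap.ext fun v => ?_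
  obtain ⟨z, rfl⟩ := θ.surjective v
  rw [LinearMap.comp_apply, tr_theta, tr_theta, tr_theta, mulVec_mulVec]

omit [DecidableEq ι] in
lemma tr_Jc (h : Cx E Jc θ) (X : Matrix ι ι ℂ) (v : V) : tr θ X (Jc v) = Jc (tr θ X v) := by
  obtain ⟨z, rfl⟩ := θ.surjective v
  rw [← h.theta, tr_theta, tr_theta, mulVec_smul, h.theta]

lemma exists_tr (h : Cx E Jc θ) {Y : V →ₗ[ℝ] V} (hY : ∀ v, Y (Jc v) = Jc (Y v)) :
    ∃ X : Matrix ι ι ℂ, tr θ X = Y := by
  let f : (ι → ℂ) →ₗ[ℂ] (ι → ℂ) :=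
    { toFun := fun z => θ.symm (Y (θ z))
      map_add' := fun x y => by rw [map_add, map_add, map_add]
      map_smul' := fun c x => by
        apply θ.injective
        rw [RingHom.id_apply, θ.apply_symm_apply, theta_smul h c (θ.symm (Y (θ x))),
          θ.apply_symm_apply, theta_smul h, map_add, map_smul, map_smul, hY] }
  refine ⟨LinearMap.toMatrix' f, LinearMap.ext fun v => ?_⟩
  obtain ⟨z, rfl⟩ := θ.surjective v
  rw [tr_theta, LinearMap.toMatrix'_mulVec]
  exact θ.apply_symm_apply _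

lemma trace_tr (X : Matrix ι ι ℂ) : LinearMap.trace ℝ V (tr θ X) = 2 * X.trace.re := by
  have h1 : LinearMap.trace ℝ V (tr θ X) =
      LinearMap.trace ℝ (ι → ℂ) (X.mulVecLin.restrictScalars ℝ) := by
    have h2 := LinearMap.trace_conj' (R := ℝ) (X.mulVecLin.restrictScalars ℝ) θ
    rw [← h2]
    rfl
  rw [h1, LinearMap.trace_eq_matrix_trace ℝ (Pi.basis fun _ : ι => Complex.basisOneI),
    Matrix.trace, Fintype.sum_sigma, Matrix.trace, Complex.re_sum, Finset.mul_sum]
  refine Finset.sum_congr rfl fun i _ => ?_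
  rw [Fin.sum_univ_two, diag_apply, diag_apply, diag_apply, LinearMap.toMatrix_apply,
    LinearMap.toMatrix_apply]
  simp only [Pi.basis_apply, Complex.coe_basisOneI, Pi.basis_repr, LinearMap.coe_restrictScalars,
    mulVecLin_apply, Matrix.cons_val_zero, Matrix.cons_val_one, Complex.coe_basisOneI_repr]
  rw [mulVec_single, mulVec_single]
  simp
  ring

/-- **The Lie algebra in coordinates.** -/
theorem lieData (h : Cx E Jc θ) {𝔤 : Submodule ℝ (V →ₗ[ℝ] V)}
    (hbr : ∀ X ∈ 𝔤, ∀ Y ∈ 𝔤, X.comp Y - Y.comp X ∈ 𝔤)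
    (hsk : ∀ Y ∈ 𝔤, ∀ u v, E (Y u) v + E u (Y v) = 0)
    (hJ : ∀ Y ∈ 𝔤, ∀ v, Y (Jc v) = Jc (Y v))
    (hirr : ∀ N : Submodule ℂ (ι → ℂ), (∀ X, tr θ X ∈ 𝔤 → ∀ u ∈ N, X *ᵥ u ∈ N) →
      ∀ X : Matrix ι ι ℂ, ∀ u ∈ N, X *ᵥ u ∈ N)
    (hnd : ∀ Y ∈ 𝔤, (∀ Y' ∈ 𝔤, LinearMap.trace ℝ V (Y.comp Y') = 0) → Y = 0) :
    LieData (𝔤.comap (tr θ)) (Hm E Jc θ) := by
  have htr0 : ∀ X, tr θ X = 0 → X = 0 := by
    intro X hX
    ext i j
    have h1 := congrArg (fun Y : V →ₗ[ℝ] V => θ.symm (Y (θ (ee j)))) hX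
    simp only [tr_theta, LinearEquiv.symm_apply_apply, LinearMap.zero_apply, map_zero] at h1
    have h2 := congrFun h1 i
    rw [mulVec_ee] at h2
    exact h2
  refine ⟨fun X hX Y hY => ?_, Hm_herm h, fun X hX => ?_, fun N hN => ?_, fun X hX hXY => ?_⟩
  · rw [Submodule.mem_comap] at hX hY ⊢
    rw [map_sub, tr_mul, tr_mul]
    exact hbr _ hX _ hY
  · rw [Submodule.mem_comap] at hX
    have h1 : ∀ z w, hf (Hm E Jc θ) (X *ᵥ z) w + hf (Hm E Jc θ) z (X *ᵥ w) = 0 := by
      intro z w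
      rw [hf_Hm h, hf_Hm h, ← tr_theta, ← tr_theta, ← tr_Jc h]
      have h2 := hsk _ hX (θ z) (θ w)
      have h3 := hsk _ hX (θ z) (Jc (θ w))
      have h4 : ((E (tr θ X (θ z)) (Jc (θ w)) + E (θ z) (tr θ X (Jc (θ w))) : ℝ) : ℂ) = 0 := by
        rw [h3, Complex.ofReal_zero]
      have h5 : ((E (tr θ X (θ z)) (θ w) + E (θ z) (tr θ X (θ w)) : ℝ) : ℂ) = 0 := by
        rw [h2, Complex.ofReal_zero]
      push_cast at h4 h5
      linear_combination h4 + Complex.I * h5
    ext i j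
    have h2 := h1 (ee i) (ee j)
    have h3 : hf (Hm E Jc θ) (X *ᵥ ee i) (ee j) = (Xᴴ * Hm E Jc θ) i j := by
      unfold hf
      rw [star_mulVec, ← dotProduct_mulVec, mulVec_mulVec]
      have h4 := sp_ee_left ((Xᴴ * Hm E Jc θ) *ᵥ ee j) i
      unfold sp at h4
      rw [h4, mulVec_ee]
    have h4 : hf (Hm E Jc θ) (ee i) (X *ᵥ ee j) = (Hm E Jc θ * X) i j := by
      unfold hf
      rw [mulVec_mulVec]
      have h4 := sp_ee_left ((Hm E Jc θ * X) *ᵥ ee j) i
      unfold sp at h4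
      rw [h4, mulVec_ee]
    rw [h3, h4] at h2
    exact h2
  · have h1 := hirr N fun X hX => hN X (Submodule.mem_comap.2 hX)
    by_cases hb : N = ⊥
    · exact Or.inl hb
    · right
      obtain ⟨u, hu, hu0⟩ := Submodule.exists_mem_ne_zero_of_ne_bot hb
      obtain ⟨i, hi⟩ : ∃ i, u i ≠ 0 := by
        by_contra hcon
        push Not at hcon
        exact hu0 (funext hcon)
      rw [eq_top_iff]
      intro v _
      have h2 := h1 (Matrix.of fun j k => if k = i then v j * (u i)⁻¹ else 0) u hu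
      have h3 : (Matrix.of fun j k => if k = i then v j * (u i)⁻¹ else 0) *ᵥ u = v := by
        funext j
        unfold mulVec dotProduct
        simp only [of_apply]
        rw [Finset.sum_eq_single i]
        · rw [if_pos rfl, mul_assoc, inv_mul_cancel₀ hi, mul_one]
        · intro k _ hk
          rw [if_neg hk, zero_mul]
        · intro h
          exact absurd (Finset.mem_univ _) h
      rw [h3] at h2
      exact h2
  · apply htr0
    refine hnd _ hX fun Y' hY' => ?_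
    obtain ⟨X', rfl⟩ := exists_tr h (hJ Y' hY')
    rw [← tr_mul, trace_tr]
    have h1 := hXY X' (Submodule.mem_comap.2 hY')
    unfold tf at h1
    rw [h1, mul_zero]

end Pool.Agent.W5h86.LZ
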