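import Pool.Agent.W5h86.LZ.Eig

set_option autoImplicit false

/-!
# The grading of the Lie algebra
-/

open Matrix

namespace Pool.Agent.W5h86.LZ

variable {ι : Type} [Fintype ι] [DecidableEq ι]

/-- conjugation with a matrix -/
def conjL (P Q : Matrix ι ι ℂ) : Matrix ι ι ℂ →ₗ[ℝ] Matrix ι ι ℂ where
  toFun Z := P * Z * Q
  map_add' X Y := by rw [Matrix.mul_add, Matrix.add_mul]
  map_smul' c X := by rw [Matrix.mul_smul, Matrix.smul_mul]; rfl

omit [DecidableEq ι] in
lemma conjL_apply (P Q Z : Matrix ι ι ℂ) : conjL P Q Z = P * Z * Q := rfl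

/-- change of the basis -/
lemma LieData.conj {𝔥 : Submodule ℝ (Matrix ι ι ℂ)} {H : Matrix ι ι ℂ} (h : LieData 𝔥 H)
    {P Q : Matrix ι ι ℂ} (hPQ : P * Q = 1) (hQP : Q * P = 1) :
    LieData (𝔥.comap (conjL P Q)) (Pᴴ * H * P) := by
  have hmul : ∀ X Y : Matrix ι ι ℂ, P * X * Q * (P * Y * Q) = P * (X * Y) * Q := by
    intro X Y
    have h1 : P * X * Q * (P * Y * Q) = P * X * (Q * P) * Y * Q := by noncomm_ring
    rw [h1, hQP, Matrix.mul_one]
    noncomm_ring
  have hback : ∀ X : Matrix ι ι ℂ, P * (Q * X * P) * Q = X := by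
    intro X
    have h1 : P * (Q * X * P) * Q = (P * Q) * X * (P * Q) := by noncomm_ring
    rw [h1, hPQ, Matrix.one_mul, Matrix.mul_one]
  refine ⟨fun X hX Y hY => ?_, ?_, fun X hX => ?_, fun N hN => ?_, fun X hX hXY => ?_⟩
  · rw [Submodule.mem_comap, conjL_apply] at hX hY ⊢
    have h1 := h.br _ hX _ hY
    rw [hmul, hmul] at h1
    have h2 : P * (X * Y - Y * X) * Q = P * (X * Y) * Q - P * (Y * X) * Q := by noncomm_ring
    rw [h2]
    exact h1
  · unfold Matrix.IsHermitian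
    rw [conjTranspose_mul, conjTranspose_mul, conjTranspose_conjTranspose, h.herm.eq,
      Matrix.mul_assoc]
  · rw [Submodule.mem_comap, conjL_apply] at hX
    have h1 := h.skew _ hX
    have h2 : Pᴴ * ((P * X * Q)ᴴ * H + H * (P * X * Q)) * P = 0 := by
      rw [h1, Matrix.mul_zero, Matrix.zero_mul]
    have h3 : Pᴴ * Qᴴ = 1 := by rw [← conjTranspose_mul, hQP, conjTranspose_one]
    have h4 : Pᴴ * ((P * X * Q)ᴴ * H + H * (P * X * Q)) * P =
        (Pᴴ * Qᴴ) * Xᴴ * (Pᴴ * H * P) + Pᴴ * H * P * X * (Q * P) := by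
      rw [conjTranspose_mul, conjTranspose_mul]
      noncomm_ring
    rw [h4, h3, hQP, Matrix.one_mul, Matrix.mul_one] at h2
    exact h2
  · have h1 := h.irr (N.map P.mulVecLin) (fun X hX u hu => by
      obtain ⟨v, hv, rfl⟩ := hu
      refine ⟨(Q * X * P) *ᵥ v, hN _ ?_ v hv, ?_⟩
      · rw [Submodule.mem_comap, conjL_apply, hback]
        exact hX
      · simp only [mulVecLin_apply]
        rw [mulVec_mulVec, mulVec_mulVec]
        congr 1
        have h5 : P * (Q * X * P) = (P * Q) * X * P := by noncomm_ring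
        rw [h5, hPQ, Matrix.one_mul])
    have hinj : Function.Injective P.mulVecLin := by
      intro u v huv
      simp only [mulVecLin_apply] at huv
      have h2 := congrArg (fun w => Q *ᵥ w) huv
      simp only [mulVec_mulVec, hQP, one_mulVec] at h2
      exact h2
    rcases h1 with h1 | h1
    · left
      rw [eq_bot_iff]
      intro v hv
      have h2 : P.mulVecLin v ∈ N.map P.mulVecLin := ⟨v, hv, rfl⟩
      rw [h1, Submodule.mem_bot] at h2
      rw [Submodule.mem_bot]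
      apply hinj
      rw [h2, map_zero]
    · right
      rw [eq_top_iff]
      intro v _
      have h2 : P.mulVecLin v ∈ N.map P.mulVecLin := by
        rw [h1]
        trivial
      obtain ⟨w, hw, hwv⟩ := h2
      rw [← hinj hwv]
      exact hw
  · rw [Submodule.mem_comap, conjL_apply] at hX
    have h1 : P * X * Q = 0 := by
      refine h.nd _ hX fun Y hY => ?_
      have h2 := hXY (Q * Y * P) (by
        rw [Submodule.mem_comap, conjL_apply, hback]
        exact hY)
      unfold tf at h2 ⊢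
      have h3 : (P * X * Q * Y).trace = (X * (Q * Y * P)).trace := by
        rw [Matrix.mul_assoc P, Matrix.mul_assoc P, trace_mul_comm P]
        congr 1
        noncomm_ring
      rw [h3]
      exact h2
    have h2 : X = Q * (P * X * Q) * P := by
      have h3 : Q * (P * X * Q) * P = (Q * P) * X * (Q * P) := by noncomm_ring
      rw [h3, hQP, Matrix.one_mul, Matrix.mul_one]
    rw [h2, h1, Matrix.mul_zero, Matrix.zero_mul]

/-- the signs of the standard form -/
def sg (p q : ι) (i : ι) : ℂ := if i = p ∨ i = q then 1 else -1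

omit [Fintype ι] in
lemma J_apply {p q : ι} (hpq : p ≠ q) (i j : ι) :
    J p q i j = if j = Equiv.swap p q i then sg p q i else 0 := by
  unfold J sg
  rw [of_apply]
  by_cases h1 : i = p
  · subst h1
    rw [if_pos rfl, Equiv.swap_apply_left, if_pos (Or.inl rfl)]
  · by_cases h2 : i = q
    · subst h2
      rw [if_neg h1, if_pos rfl, Equiv.swap_apply_right, if_pos (Or.inr rfl)]
    · rw [if_neg h1, if_neg h2, Equiv.swap_apply_of_ne_of_ne h1 h2,
        if_neg (not_or.2 ⟨h1, h2⟩)]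
      by_cases h3 : i = j
      · rw [if_pos h3, if_pos h3.symm]
      · rw [if_neg h3, if_neg (Ne.symm h3)]

omit [Fintype ι] in
lemma sg_swap (p q i : ι) : sg p q (Equiv.swap p q i) = sg p q i := by
  unfold sg
  by_cases h1 : i = p
  · subst h1
    rw [Equiv.swap_apply_left, if_pos (Or.inr rfl), if_pos (Or.inl rfl)]
  · by_cases h2 : i = q
    · subst h2
      rw [Equiv.swap_apply_right, if_pos (Or.inl rfl), if_pos (Or.inr rfl)]
    · rw [Equiv.swap_apply_of_ne_of_ne h1 h2]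

omit [Fintype ι] in
lemma sg_ne (p q i : ι) : sg p q i ≠ 0 := by
  unfold sg
  split_ifs <;> simp

omit [Fintype ι] in
lemma dg_swap {p q : ι} (hpq : p ≠ q) (i : ι) : dg p q (Equiv.swap p q i) = -dg p q i := by
  unfold dg
  by_cases h1 : i = p
  · subst h1
    rw [Equiv.swap_apply_left, if_neg hpq.symm, if_pos rfl, if_pos rfl]
  · by_cases h2 : i = q
    · subst h2
      rw [Equiv.swap_apply_right, if_pos rfl, if_neg h1, if_pos rfl]
      rfl
    · rw [Equiv.swap_apply_of_ne_of_ne h1 h2, if_neg h1, if_neg h2]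
      rfl

/-- skew-hermitian matrices for the standard form -/
def Skw (p q : ι) (X : Matrix ι ι ℂ) : Prop :=
  ∀ i j, sg p q j * star (X (Equiv.swap p q j) i) + sg p q i * X (Equiv.swap p q i) j = 0

lemma skw_iff {p q : ι} (hpq : p ≠ q) (X : Matrix ι ι ℂ) :
    Xᴴ * J p q + J p q * X = 0 ↔ Skw p q X := by
  have h1 : ∀ i j, (Xᴴ * J p q + J p q * X) i j =
      sg p q j * star (X (Equiv.swap p q j) i) + sg p q i * X (Equiv.swap p q i) j := by
    intro i j
    rw [Matrix.add_apply, mul_apply, mul_apply, Finset.sum_eq_single (Equiv.swap p q j),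
      Finset.sum_eq_single (Equiv.swap p q i)]
    · rw [J_apply hpq, J_apply hpq, Equiv.swap_apply_self, if_pos rfl, if_pos rfl, sg_swap,
        conjTranspose_apply]
      ring
    · intro c _ hc
      rw [J_apply hpq, if_neg hc, zero_mul]
    · intro h
      exact absurd (Finset.mem_univ _) h
    · intro c _ hc
      rw [J_apply hpq, if_neg, mul_zero]
      intro h
      apply hc
      rw [h, Equiv.swap_apply_self]
    · intro h
      exact absurd (Finset.mem_univ _) h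
  constructor
  · intro h i j
    rw [← h1, h]
    rfl
  · intro h
    ext i j
    rw [h1, h i j]
    rfl

lemma J_mul_J {p q : ι} (hpq : p ≠ q) : J p q * J p q = 1 := by
  ext i j
  rw [mul_apply, Finset.sum_eq_single (Equiv.swap p q i)]
  · rw [J_apply hpq, J_apply hpq, if_pos rfl, Equiv.swap_apply_self, sg_swap, one_apply]
    by_cases h : i = j
    · subst h
      rw [if_pos rfl, if_pos rfl]
      unfold sg
      split_ifs <;> norm_num
    · rw [if_neg h, if_neg (Ne.symm h), mul_zero]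
  · intro c _ hc
    rw [J_apply hpq, if_neg hc, zero_mul]
  · intro h
    exact absurd (Finset.mem_univ _) h

/-- the projection onto the part of degree `k` -/
def pr (p q : ι) (k : ℤ) (X : Matrix ι ι ℂ) : Matrix ι ι ℂ :=
  Matrix.of fun i j => if dg p q i - dg p q j = k then X i j else 0

omit [Fintype ι] in
lemma Skw.pr {p q : ι} (hpq : p ≠ q) {X : Matrix ι ι ℂ} (h : Skw p q X) (k : ℤ) :
    Skw p q (pr p q k X) := by
  intro i j
  unfold LZ.pr
  rw [of_apply, of_apply, dg_swap hpq, dg_swap hpq]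
  by_cases hk : -dg p q i - dg p q j = k
  · rw [if_pos hk, if_pos (by linarith)]
    exact h i j
  · rw [if_neg hk, if_neg (fun h' => hk (by linarith)), star_zero, mul_zero, mul_zero, add_zero]

/-- the complexification inside the matrices -/
def cx (𝔥 : Submodule ℝ (Matrix ι ι ℂ)) : Submodule ℂ (Matrix ι ι ℂ) where
  carrier := {W | ∃ A ∈ 𝔥, ∃ B ∈ 𝔥, W = A + Complex.I • B}
  add_mem' := by
    rintro _ _ ⟨A, hA, B, hB, rfl⟩ ⟨C, hC, D, hD, rfl⟩
    refine ⟨A + C, 𝔥.add_mem hA hC, B + D, 𝔥.add_mem hB hD, ?_⟩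
    rw [smul_add]
    abel
  zero_mem' := ⟨0, 𝔥.zero_mem, 0, 𝔥.zero_mem, by rw [smul_zero, add_zero]⟩
  smul_mem' := by
    rintro c _ ⟨A, hA, B, hB, rfl⟩
    refine ⟨c.re • A - c.im • B, 𝔥.sub_mem (𝔥.smul_mem _ hA) (𝔥.smul_mem _ hB),
      c.re • B + c.im • A, 𝔥.add_mem (𝔥.smul_mem _ hB) (𝔥.smul_mem _ hA), ?_⟩
    ext i j
    simp only [Matrix.smul_apply, Matrix.add_apply, Matrix.sub_apply, smul_eq_mul,
      Complex.real_smul]
    conv_lhs => rw [← Complex.re_add_im c]
    linear_combination (c.im : ℂ) * B i j * Complex.I_sq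

omit [Fintype ι] [DecidableEq ι] in
lemma mem_cx {𝔥 : Submodule ℝ (Matrix ι ι ℂ)} {A : Matrix ι ι ℂ} (h : A ∈ 𝔥) : A ∈ cx 𝔥 :=
  ⟨A, h, 0, 𝔥.zero_mem, by rw [smul_zero, add_zero]⟩

/-- the multiplication with a function of the weight -/
def wt (μ : ι → ℂ) (c : ℂ → ℂ) (X : Matrix ι ι ℂ) : Matrix ι ι ℂ :=
  Matrix.of fun i j => c (μ i - μ j) * X i j

lemma wt_mem {𝔥 : Submodule ℝ (Matrix ι ι ℂ)} (hbr : ∀ X ∈ 𝔥, ∀ Y ∈ 𝔥, X * Y - Y * X ∈ 𝔥)
    {μ : ι → ℂ} (hμ : diagonal μ ∈ 𝔥) (c : ℂ → ℂ) {X : Matrix ι ι ℂ} (hX : X ∈ cx 𝔥) :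
    wt μ c X ∈ cx 𝔥 := by
  have hstep : ∀ W ∈ cx 𝔥, wt μ (fun z => z) W ∈ cx 𝔥 := by
    rintro _ ⟨A, hA, B, hB, rfl⟩
    refine ⟨diagonal μ * A - A * diagonal μ, hbr _ hμ _ hA, diagonal μ * B - B * diagonal μ,
      hbr _ hμ _ hB, ?_⟩
    ext i j
    simp only [wt, of_apply, Matrix.add_apply, Matrix.sub_apply, Matrix.smul_apply,
      diagonal_mul, mul_diagonal, smul_eq_mul]
    ring
  have hpow : ∀ n : ℕ, wt μ (fun z => z ^ n) X ∈ cx 𝔥 := by
    intro n
    induction n with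
    | zero =>
      have h1 : wt μ (fun z => z ^ 0) X = X := by
        ext i j
        simp [wt]
      rw [h1]
      exact hX
    | succ n ih =>
      have h1 : wt μ (fun z => z ^ (n + 1)) X = wt μ (fun z => z) (wt μ (fun z => z ^ n) X) := by
        ext i j
        simp only [wt, of_apply]
        ring
      rw [h1]
      exact hstep _ ih
  have hpoly : ∀ P : Polynomial ℂ, wt μ (fun z => P.eval z) X ∈ cx 𝔥 := by
    intro P
    induction P using Polynomial.induction_on' with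
    | add P Q hP hQ =>
      have h1 : wt μ (fun z => (P + Q).eval z) X = wt μ (fun z => P.eval z) X +
          wt μ (fun z => Q.eval z) X := by
        ext i j
        simp only [wt, of_apply, Matrix.add_apply, Polynomial.eval_add]
        ring
      rw [h1]
      exact (cx 𝔥).add_mem hP hQ
    | monomial n a =>
      have h1 : wt μ (fun z => (Polynomial.monomial n a).eval z) X =
          a • wt μ (fun z => z ^ n) X := by
        ext i j
        simp only [wt, of_apply, Matrix.smul_apply, Polynomial.eval_monomial, smul_eq_mul]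
        ring
      rw [h1]
      exact (cx 𝔥).smul_mem a (hpow n)
  let s : Finset ℂ := Finset.univ.image fun x : ι × ι => μ x.1 - μ x.2
  have h1 := hpoly (Lagrange.interpolate s id c)
  have h2 : wt μ (fun z => (Lagrange.interpolate s id c).eval z) X = wt μ c X := by
    ext i j
    simp only [wt, of_apply]
    congr 1
    have h3 : μ i - μ j ∈ s := Finset.mem_image.2 ⟨(i, j), Finset.mem_univ _, rfl⟩
    exact Lagrange.eval_interpolate_at_node (v := id) c (Set.injOn_id _) h3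
  rw [h2] at h1
  exact h1

lemma cx_skew {𝔥 : Submodule ℝ (Matrix ι ι ℂ)} {p q : ι} (hpq : p ≠ q)
    (hsk : ∀ X ∈ 𝔥, Xᴴ * J p q + J p q * X = 0) {W : Matrix ι ι ℂ} (hW : W ∈ cx 𝔥)
    (h : Wᴴ * J p q + J p q * W = 0) : W ∈ 𝔥 := by
  obtain ⟨A, hA, B, hB, rfl⟩ := hW
  have h1 := hsk A hA
  have h2 := hsk B hB
  have h3 : (A + Complex.I • B)ᴴ * J p q + J p q * (A + Complex.I • B) =
      (Aᴴ * J p q + J p q * A) - Complex.I • (Bᴴ * J p q + J p q * B) +
        (2 * Complex.I) • (J p q * B) := by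
    rw [conjTranspose_add, conjTranspose_smul, Complex.star_def, Complex.conj_I, Matrix.add_mul,
      Matrix.mul_add, Matrix.smul_mul, Matrix.mul_smul, neg_smul, smul_add, mul_smul, two_smul]
    abel
  rw [h3, h1, h2, smul_zero, sub_zero, zero_add] at h
  have h4 : J p q * B = 0 := by
    have h5 : (2 * Complex.I : ℂ) ≠ 0 := mul_ne_zero two_ne_zero Complex.I_ne_zero
    exact (smul_eq_zero.1 h).resolve_left h5
  have h5 : B = 0 := by
    have h6 : B = J p q * (J p q * B) := by rw [← Matrix.mul_assoc, J_mul_J hpq, Matrix.one_mul]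
    rw [h6, h4, Matrix.mul_zero]
  rw [h5, smul_zero, add_zero]
  exact hA

/-- A graded irreducible Lie algebra. -/
structure GD (𝔥 : Submodule ℝ (Matrix ι ι ℂ)) (p q : ι) : Prop where
  ne : p ≠ q
  br : ∀ X ∈ 𝔥, ∀ Y ∈ 𝔥, X * Y - Y * X ∈ 𝔥
  skew : ∀ X ∈ 𝔥, Xᴴ * J p q + J p q * X = 0
  irr : ∀ N : Submodule ℂ (ι → ℂ), (∀ X ∈ 𝔥, ∀ u ∈ N, X *ᵥ u ∈ N) → N = ⊥ ∨ N = ⊤
  pr : ∀ X ∈ 𝔥, ∀ k, pr p q k X ∈ 𝔥

lemma pr_mem {𝔥 : Submodule ℝ (Matrix ι ι ℂ)} (hbr : ∀ X ∈ 𝔥, ∀ Y ∈ 𝔥, X * Y - Y * X ∈ 𝔥)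
    {p q : ι} (hpq : p ≠ q) (hsk : ∀ X ∈ 𝔥, Xᴴ * J p q + J p q * X = 0) {μ : ι → ℂ} {ρ : ℝ}
    (hρ : ρ ≠ 0) (hμρ : ∀ i, (μ i).re = dg p q i * ρ) (hμ : diagonal μ ∈ 𝔥) {X : Matrix ι ι ℂ}
    (hX : X ∈ 𝔥) (k : ℤ) : pr p q k X ∈ 𝔥 := by
  classical
  refine cx_skew hpq hsk ?_ ((skw_iff hpq _).2 (((skw_iff hpq X).1 (hsk X hX)).pr hpq k))
  have h1 := wt_mem hbr hμ (fun z => if z.re = k * ρ then 1 else 0) (mem_cx hX)
  have h2 : wt μ (fun z => if z.re = k * ρ then 1 else 0) X = pr p q k X := by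
    ext i j
    simp only [wt, pr, of_apply, Complex.sub_re, hμρ]
    by_cases hk : dg p q i - dg p q j = k
    · rw [if_pos hk, if_pos, one_mul]
      rw [← hk]
      push_cast
      ring
    · rw [if_neg hk, if_neg, zero_mul]
      intro h
      apply hk
      rw [← sub_mul] at h
      have h3 := mul_right_cancel₀ hρ h
      exact_mod_cast h3
  rw [h2] at h1
  exact h1

omit [Fintype ι] in
lemma J_comm (p q : ι) (hpq : p ≠ q) : J q p = J p q := by
  ext i j
  rw [J_apply hpq, J_apply hpq.symm, Equiv.swap_comm]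
  unfold sg
  simp only [or_comm]

omit [Fintype ι] in
lemma dg_comm (p q : ι) (hpq : p ≠ q) (i : ι) : dg q p i = -dg p q i := by
  unfold dg
  by_cases h1 : i = p
  · subst h1
    rw [if_neg hpq, if_pos rfl, if_pos rfl]
  · by_cases h2 : i = q
    · subst h2
      rw [if_pos rfl, if_neg h1, if_pos rfl]
      rfl
    · rw [if_neg h1, if_neg h2, if_neg h2, if_neg h1]
      rfl

lemma GD.symm {𝔥 : Submodule ℝ (Matrix ι ι ℂ)} {p q : ι} (h : GD 𝔥 p q) : GD 𝔥 q p := by
  refine ⟨h.ne.symm, h.br, ?_, h.irr, fun X hX k => ?_⟩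
  · rw [J_comm p q h.ne]
    exact h.skew
  · have h1 := h.pr X hX (-k)
    have h2 : LZ.pr q p k X = LZ.pr p q (-k) X := by
      ext i j
      simp only [LZ.pr, of_apply, dg_comm p q h.ne]
      by_cases hk : dg p q i - dg p q j = -k
      · rw [if_pos hk, if_pos (by linarith)]
      · rw [if_neg hk, if_neg (fun h' => hk (by linarith))]
    rw [h2]
    exact h1

/-- **Reduction to graded Lie algebras.** -/
theorem exists_graded {𝔥 : Submodule ℝ (Matrix ι ι ℂ)} {H : Matrix ι ι ℂ} (h : LieData 𝔥 H)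
    (hL : Lor H) (hdet : H.det ≠ 0) {u : ι → ℂ} (hu : 0 < qf H u) {p q : ι} (hpq : p ≠ q) :
    ∃ P Q : Matrix ι ι ℂ, P * Q = 1 ∧ Q * P = 1 ∧ Pᴴ * H * P = J p q ∧
      GD (𝔥.comap (conjL P Q)) p q := by
  have : Nonempty ι := ⟨p⟩
  obtain ⟨w, hw⟩ := hL
  -- a negative vector
  obtain ⟨v, hv⟩ : ∃ v, qf H v < 0 := by
    let Φ : (ι → ℂ) →ₗ[ℂ] (ι → ℂ) := LinearMap.pi fun i => if i = p then hfL H w else 0
    have h1 : ¬ Function.Injective Φ := by
      intro hinj
      obtain ⟨v, hv⟩ := (LinearMap.injective_iff_surjective.1 hinj) (Pi.single q 1)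
      have h2 := congrFun hv q
      simp [Φ, hpq.symm] at h2
    have h2 : LinearMap.ker Φ ≠ ⊥ := fun h => h1 (LinearMap.ker_eq_bot.1 h)
    obtain ⟨v, hv, hv0⟩ := Submodule.exists_mem_ne_zero_of_ne_bot h2
    refine ⟨v, hw v hv0 ?_⟩
    have h3 := congrFun (LinearMap.mem_ker.1 hv) p
    simp only [Φ, LinearMap.pi_apply, if_pos] at h3
    exact h3
  obtain ⟨X, hX, hpos⟩ := exists_trace_pos h hu hv (by
    rw [isUnit_iff_isUnit_det, isUnit_iff_ne_zero]
    exact hdet)
  obtain ⟨g, μ, ρ, hρ, hg, hμ, hJ⟩ := exists_adapted h.herm ⟨w, hw⟩ hdet (h.skew X hX) hpos hpq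
  let P : Matrix ι ι ℂ := Matrix.of fun i j => g j i
  have hP : ∀ j, P.col j = g j := fun j => rfl
  have hPJ : Pᴴ * H * P = J p q := by
    ext i j
    rw [← hJ i j, Matrix.mul_assoc]
    unfold hf
    rfl
  have hQP : (J p q * (Pᴴ * H)) * P = 1 := by
    rw [Matrix.mul_assoc, hPJ, J_mul_J hpq]
  have hPQ : P * (J p q * (Pᴴ * H)) = 1 := mul_eq_one_comm.1 hQP
  refine ⟨P, _, hPQ, hQP, hPJ, ?_⟩
  have h1 := h.conj hPQ hQP
  rw [hPJ] at h1
  refine ⟨hpq, h1.br, h1.skew, h1.irr, fun Y hY k => pr_mem h1.br hpq h1.skew hρ hμ ?_ hY k⟩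
  rw [Submodule.mem_comap, conjL_apply]
  have h2 : X * P = P * diagonal μ := by
    ext i j
    have h3 := congrFun (hg j) i
    rw [mul_diagonal]
    have h4 : (X * P) i j = (X *ᵥ g j) i := rfl
    rw [h4, h3, Pi.smul_apply, smul_eq_mul, mul_comm]
    rfl
  rw [← h2, Matrix.mul_assoc, hPQ, Matrix.mul_one]
  exact hX

end Pool.Agent.W5h86.LZ
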