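import Pool.Agent.W5h86.LZ.Br4

set_option autoImplicit false

/-!
# The powers of the polarization are Hodge classes
-/

open Module Function

noncomputable section

namespace Pool.Agent.W5h86.LZ

open Pool.Agent.Y102 Pool.Agent.W516.DR Pool.Agent.W516.KC Pool.Agent.H204R3.GP

variable {g : ℕ} {A : AbVar g}

lemma E_unit {z : ℂ} (hz : ‖z‖ = 1) (u v : Fin g → ℂ) : A.E (z • u) (z • v) = A.E u v := by
  have hdec : ∀ x : Fin g → ℂ, z • x = z.re • x + z.im • (Complex.I • x) := by
    intro x
    funext i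
    simp only [Pi.smul_apply, Pi.add_apply, smul_eq_mul, Complex.real_smul]
    conv_lhs => rw [← Complex.re_add_im z]
    ring
  have hsl : ∀ (r : ℝ) x y, A.E (r • x) y = r * A.E x y := fun r x y => by
    rw [map_smul, LinearMap.smul_apply, smul_eq_mul]
  have hsr : ∀ (r : ℝ) x y, A.E x (r • y) = r * A.E x y := fun r x y => by
    rw [map_smul, smul_eq_mul]
  have h1 : z.re ^ 2 + z.im ^ 2 = 1 := by
    have h2 := Complex.sq_norm z
    rw [hz, Complex.normSq_apply] at h2
    linarith
  rw [hdec u, hdec v, map_add, map_add, LinearMap.add_apply, LinearMap.add_apply, hsl,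
    hsl, hsl, hsl, hsr, hsr, hsr, hsr, (A.E_I u v).1, (A.E_I u v).2]
  linear_combination (A.E u v) * h1

/-- the multiples of the powers of the polarization are Hodge classes -/
theorem hodge_Om {k : ℕ} {φ : A.H1 [⋀^Fin k × Fin 2]→ₗ[ℚ] ℚ} {c : ℚ}
    (h : ∀ v, φ v = c * Om A k v) :
    IsHodgeTensor (A.per : A.H1 →+ (Fin g → ℂ)) φ.toMultilinearMap := by
  refine ⟨(c : ℝ) • (pw A.E k).toMultilinearMap, fun v => ?_, fun z hz u => ?_⟩
  · have h1 : φ.toMultilinearMap v = c * Om A k v := h v
    rw [h1]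
    push_cast
    rw [Om_coe]
    rfl
  · have h1 : pw A.E k (fun l => z • u l) = pw A.E k u := by
      rw [pw_apply, pw_apply]
      refine Finset.sum_congr rfl fun σ _ => ?_
      congr 1
      exact Finset.prod_congr rfl fun l _ => E_unit hz _ _
    rw [smul_apply, smul_apply]
    congr 1

end Pool.Agent.W5h86.LZ
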