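import Mathlib

set_option autoImplicit false

/-!
# Invariant alternating forms
-/

open Module

namespace Pool.Agent.W5h86.LZ

variable {κ N : Type} [Fintype κ] [DecidableEq κ] [Fintype N] [DecidableEq N]
  {V : Type} [AddCommGroup V] [Module ℝ V]

/-- The endomorphism `T` annihilates the form `ψ`. -/
def Kills (T : V →ₗ[ℝ] V) (ψ : V [⋀^N]→ₗ[ℝ] ℝ) : Prop :=
  ∀ v : N → V, ∑ r, ψ (Function.update v r (T (v r))) = 0

/-- The form is annihilated by operators which exchange the basis vectors. -/
def Exch (e : κ × Fin 2 → V) (ψ : V [⋀^N]→ₗ[ℝ] ℝ) : Prop :=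
  ∀ i j, i ≠ j → ∃ (T : V →ₗ[ℝ] V) (c : ℝ), Kills T ψ ∧ (∀ ε, T (e (j, ε)) = e (i, ε)) ∧
    (∀ ε, T (e (i, ε)) = c • e (j, ε)) ∧ ∀ k, k ≠ i → k ≠ j → ∀ ε, T (e (k, ε)) = 0

lemma other_ne (ε : Fin 2) : 1 - ε ≠ ε := by
  revert ε
  decide

lemma other_other (ε : Fin 2) : 1 - (1 - ε) = ε := by
  revert ε
  decide

lemma eq_or_other (ε δ : Fin 2) : δ = ε ∨ δ = 1 - ε := by
  revert ε δ
  decide

variable {e : κ × Fin 2 → V} {ψ : V [⋀^N]→ₗ[ℝ] ℝ}

omit [Fintype κ] [DecidableEq κ] [Fintype N] [AddCommGroup V] [Module ℝ V] in
lemma comp_update (s : N → κ × Fin 2) (r : N) (x : κ × Fin 2) :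
    (fun t => e (Function.update s r x t)) = Function.update (fun t => e (s t)) r (e x) := by
  funext t
  by_cases ht : t = r
  · subst ht
    rw [Function.update_self, Function.update_self]
  · rw [Function.update_of_ne ht, Function.update_of_ne ht]

omit [Fintype κ] [DecidableEq κ] in
/-- an index is absent -/
lemma zero_of_absent (h : Exch e ψ) {s : N → κ × Fin 2} (hs : Function.Injective s) {a b : κ}
    {ε : Fin 2} {r : N} (hr : s r = (a, ε)) (ha : ∀ t, s t ≠ (a, 1 - ε))
    (hb : ∀ t δ, s t ≠ (b, δ)) : ψ (fun t => e (s t)) = 0 := by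
  have hab : a ≠ b := by
    rintro rfl
    exact hb r ε hr
  obtain ⟨T, c, hT, h1, h2, h3⟩ := h a b hab
  have h4 := hT (fun t => e (Function.update s r (b, ε) t))
  rw [Finset.sum_eq_single r] at h4
  · rw [Function.update_self, h1, ← hr, ← comp_update, Function.update_idem,
      Function.update_eq_self] at h4
    exact h4
  · intro t _ ht
    rw [Function.update_of_ne ht]
    have h5 : T (e (s t)) = 0 := by
      rcases hst : s t with ⟨x, δ⟩
      refine h3 x ?_ ?_ δ
      · rintro rfl
        rcases eq_or_other ε δ with rfl | rfl
        · exact ht (hs (hst.trans hr.symm))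
        · exact ha t hst
      · rintro rfl
        exact hb t δ hst
    rw [h5]
    exact ψ.map_coord_zero t (Function.update_self _ _ _)
  · intro h
    exact absurd (Finset.mem_univ _) h

omit [Fintype κ] [DecidableEq κ] in
/-- an index is present twice -/
lemma zero_of_twice (h : Exch e ψ) {s : N → κ × Fin 2} (hs : Function.Injective s) {a b : κ}
    {ε : Fin 2} {r r0 r1 : N} (hr : s r = (a, ε)) (ha : ∀ t, s t ≠ (a, 1 - ε))
    (h0 : s r0 = (b, ε)) (h1 : s r1 = (b, 1 - ε)) : ψ (fun t => e (s t)) = 0 := by
  have hab : b ≠ a := by
    rintro rfl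
    exact ha r1 h1
  have hr1 : r ≠ r1 := by
    rintro rfl
    rw [hr] at h1
    exact hab (congrArg Prod.fst h1).symm
  have hr0 : r ≠ r0 := by
    rintro rfl
    rw [hr] at h0
    exact hab (congrArg Prod.fst h0).symm
  have h01 : r0 ≠ r1 := by
    rintro rfl
    rw [h0] at h1
    exact other_ne ε (congrArg Prod.snd h1).symm
  obtain ⟨T, c, hT, g1, g2, g3⟩ := h b a hab
  have h4 := hT (fun t => e (Function.update s r1 (a, 1 - ε) t))
  rw [Finset.sum_eq_single r1] at h4
  · rw [Function.update_self, g1, ← h1, ← comp_update, Function.update_idem,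
      Function.update_eq_self] at h4
    exact h4
  · intro t _ ht
    rw [Function.update_of_ne ht]
    by_cases htr : t = r
    · subst htr
      rw [hr, g1]
      refine ψ.map_eq_zero_of_eq _ ?_ hr0
      rw [Function.update_self, Function.update_of_ne (Ne.symm hr0), Function.update_of_ne h01, h0]
    · by_cases htr0 : t = r0
      · subst htr0
        rw [h0, g2, ψ.map_update_smul, smul_eq_mul]
        have h5 : ψ (Function.update (fun t => e (Function.update s r1 (a, 1 - ε) t)) t
            (e (a, ε))) = 0 := by
          refine ψ.map_eq_zero_of_eq _ ?_ hr0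
          rw [Function.update_self, Function.update_of_ne hr0, Function.update_of_ne hr1, hr]
        rw [h5, mul_zero]
      · have h5 : T (e (s t)) = 0 := by
          rcases hst : s t with ⟨x, δ⟩
          refine g3 x ?_ ?_ δ
          · rintro rfl
            rcases eq_or_other ε δ with rfl | rfl
            · exact htr0 (hs (hst.trans h0.symm))
            · exact ht (hs (hst.trans h1.symm))
          · rintro rfl
            rcases eq_or_other ε δ with rfl | rfl
            · exact htr (hs (hst.trans hr.symm))
            · exact ha t hst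
        rw [h5]
        exact ψ.map_coord_zero t (Function.update_self _ _ _)
  · intro h
    exact absurd (Finset.mem_univ _) h

omit [Fintype κ] [DecidableEq κ] in
/-- exchange of a pair -/
lemma exchange (h : Exch e ψ) {s : N → κ × Fin 2} (hs : Function.Injective s) {a b : κ}
    {ε : Fin 2} {r0 r1 : N} (h0 : s r0 = (a, ε)) (h1 : s r1 = (a, 1 - ε))
    (hb : ∀ t δ, s t ≠ (b, δ)) : ∃ c : ℝ, ψ (fun t => e (s t)) =
      c * ψ (fun t => e (Function.update (Function.update s r1 (b, 1 - ε)) r0 (b, ε) t)) := by
  have hab : a ≠ b := by
    rintro rfl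
    exact hb r0 ε h0
  have h01 : r0 ≠ r1 := by
    rintro rfl
    rw [h0] at h1
    exact other_ne ε (congrArg Prod.snd h1).symm
  obtain ⟨T, c, hT, g1, g2, g3⟩ := h a b hab
  have h4 := hT (fun t => e (Function.update s r1 (b, 1 - ε) t))
  have h5 : ∑ t, ψ (Function.update (fun t => e (Function.update s r1 (b, 1 - ε) t)) t
      (T (e (Function.update s r1 (b, 1 - ε) t)))) =
      ∑ t ∈ ({r0, r1} : Finset N),
        ψ (Function.update (fun t => e (Function.update s r1 (b, 1 - ε) t)) t
      (T (e (Function.update s r1 (b, 1 - ε) t)))) := by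
    symm
    refine Finset.sum_subset (Finset.subset_univ _) fun t _ ht => ?_
    rw [Finset.mem_insert, Finset.mem_singleton, not_or] at ht
    rw [Function.update_of_ne ht.2]
    have h5 : T (e (s t)) = 0 := by
      rcases hst : s t with ⟨x, δ⟩
      refine g3 x ?_ ?_ δ
      · rintro rfl
        rcases eq_or_other ε δ with rfl | rfl
        · exact ht.1 (hs (hst.trans h0.symm))
        · exact ht.2 (hs (hst.trans h1.symm))
      · rintro rfl
        exact hb t δ hst
    rw [h5]
    exact ψ.map_coord_zero t (Function.update_self _ _ _)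
  rw [h5, Finset.sum_pair h01, Function.update_self, g1, ← h1] at h4
  have h6 : Function.update (fun t => e (Function.update s r1 (b, 1 - ε) t)) r1 (e (s r1)) =
      fun t => e (s t) := by
    rw [← comp_update, Function.update_idem, Function.update_eq_self]
  rw [h6, Function.update_of_ne h01, h0, g2, ψ.map_update_smul, ← comp_update,
    smul_eq_mul] at h4
  refine ⟨-c, ?_⟩
  linarith

/-- every index is present twice or absent -/
def Paired (s : N → κ × Fin 2) : Prop := ∀ r a ε, s r = (a, ε) → ∃ t, s t = (a, 1 - ε)

omit [DecidableEq κ] in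
/-- the values on the unpaired families -/
lemma zero_of_unpaired (h : Exch e ψ) {s : N → κ × Fin 2} (hs : Function.Injective s)
    (hN : Fintype.card N ≠ Fintype.card κ) (hp : ¬ Paired s) : ψ (fun t => e (s t)) = 0 := by
  unfold Paired at hp
  push Not at hp
  obtain ⟨r, a, ε, hr, ha⟩ := hp
  by_cases h1 : ∃ b, ∀ t δ, s t ≠ (b, δ)
  · obtain ⟨b, hb⟩ := h1
    exact zero_of_absent h hs hr ha hb
  by_cases h2 : ∃ b r0 r1, s r0 = (b, ε) ∧ s r1 = (b, 1 - ε)
  · obtain ⟨b, r0, r1, h0, h1⟩ := h2
    exact zero_of_twice h hs hr ha h0 h1
  exfalso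
  push Not at h1 h2
  apply hN
  refine Fintype.card_of_bijective (f := fun t => (s t).1) ⟨fun t t' htt => ?_, fun b => ?_⟩
  · apply hs
    rcases hst : s t with ⟨x, δ⟩
    rcases hst' : s t' with ⟨x', δ'⟩
    have h3 : x = x' := by
      simp only [hst, hst'] at htt
      exact htt
    subst h3
    rcases eq_or_other ε δ with rfl | rfl
    · rcases eq_or_other δ δ' with rfl | rfl
      · rfl
      · exact absurd hst' (h2 x t t' hst)
    · rcases eq_or_other ε δ' with rfl | rfl
      · exact absurd hst (h2 x t' t hst')
      · rfl
  · obtain ⟨t, δ, ht⟩ := h1 b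
    exact ⟨t, congrArg Prod.fst ht⟩

omit [Fintype κ] in
/-- the values on the paired families -/
lemma zero_of_paired (h : Exch e ψ) {s0 : N → κ × Fin 2} (hs0 : Function.Injective s0)
    (hp0 : Paired s0) (h0 : ψ (fun t => e (s0 t)) = 0) : ∀ (m : ℕ) (s : N → κ × Fin 2),
    Function.Injective s → Paired s →
    (Finset.univ.filter fun r => ∀ t, s r ≠ s0 t).card ≤ m → ψ (fun t => e (s t)) = 0 := by
  intro m
  induction m with
  | zero =>
    intro s hs hp hm
    have h1 : ∀ r, ∃ t, s0 t = s r := by
      intro r
      by_contra hcon
      push Not at hcon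
      rw [Nat.le_zero, Finset.card_eq_zero] at hm
      have h2 : r ∈ (Finset.univ.filter fun r => ∀ t, s r ≠ s0 t) := by
        rw [Finset.mem_filter]
        exact ⟨Finset.mem_univ _, fun t => (hcon t).symm⟩
      rw [hm] at h2
      exact absurd h2 (Finset.notMem_empty _)
    choose π hπ using h1
    have hπi : Function.Injective π := by
      intro r r' hrr
      apply hs
      rw [← hπ, ← hπ, hrr]
    have hπb : Function.Bijective π := Finite.injective_iff_bijective.1 hπi
    have h2 : (fun t => e (s t)) = (fun t => e (s0 t)) ∘ (Equiv.ofBijective π hπb) := by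
      funext t
      simp only [Function.comp_apply, Equiv.ofBijective_apply, hπ]
    rw [h2, ψ.map_perm, h0, smul_zero]
  | succ m ih =>
    intro s hs hp hm
    by_cases hall : ∀ r, ∃ t, s0 t = s r
    · refine ih s hs hp ?_
      have h1 : (Finset.univ.filter fun r => ∀ t, s r ≠ s0 t) = ∅ := by
        rw [Finset.filter_eq_empty_iff]
        intro r _ hr
        obtain ⟨t, ht⟩ := hall r
        exact hr t ht.symm
      rw [h1, Finset.card_empty]
      exact Nat.zero_le _
    · push Not at hall
      obtain ⟨r0, hr0⟩ := hall
      rcases hsr : s r0 with ⟨a, ε⟩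
      obtain ⟨r1, hr1⟩ := hp r0 a ε hsr
      -- an element of the image of `s0` which is not in the image of `s`
      obtain ⟨t0, ht0⟩ : ∃ t0, ∀ r, s r ≠ s0 t0 := by
        by_contra hcon
        push Not at hcon
        choose π hπ using hcon
        have hπi : Function.Injective π := by
          intro r r' hrr
          apply hs0
          rw [← hπ, ← hπ, hrr]
        obtain ⟨t, ht⟩ := (Finite.injective_iff_surjective.1 hπi) r0
        apply hr0 t
        rw [← hπ, ht]
      rcases hs0t : s0 t0 with ⟨b, δ⟩
      have hb : ∀ t δ', s t ≠ (b, δ') := by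
        intro t δ' ht
        rcases eq_or_other δ δ' with rfl | rfl
        · exact ht0 t (ht.trans hs0t.symm)
        · obtain ⟨t', ht'⟩ := hp t b _ ht
          rw [other_other] at ht'
          exact ht0 t' (ht'.trans hs0t.symm)
      have hb0 : ∀ δ', ∃ t, s0 t = (b, δ') := by
        intro δ'
        rcases eq_or_other δ δ' with rfl | rfl
        · exact ⟨t0, hs0t⟩
        · exact hp0 t0 b δ hs0t
      have h01 : r0 ≠ r1 := by
        rintro rfl
        rw [hsr] at hr1
        exact other_ne ε (congrArg Prod.snd hr1).symm
      obtain ⟨c, hc⟩ := exchange h hs hsr hr1 hb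
      rw [hc]
      set s' := Function.update (Function.update s r1 (b, 1 - ε)) r0 (b, ε) with hs'
      have e0 : s' r0 = (b, ε) := by rw [hs', Function.update_self]
      have e1 : s' r1 = (b, 1 - ε) := by
        rw [hs', Function.update_of_ne (Ne.symm h01), Function.update_self]
      have e2 : ∀ t, t ≠ r0 → t ≠ r1 → s' t = s t := by
        intro t h1 h2
        rw [hs', Function.update_of_ne h1, Function.update_of_ne h2]
      clear_value s'
      have hs'i : Function.Injective s' := by
        intro t t' htt
        by_cases a1 : t = r0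
        · subst a1
          by_cases a2 : t' = t
          · exact a2.symm
          · by_cases a3 : t' = r1
            · subst a3
              rw [e0, e1] at htt
              exact absurd (congrArg Prod.snd htt).symm (other_ne ε)
            · rw [e0, e2 t' a2 a3] at htt
              exact absurd htt.symm (hb _ _)
        · by_cases a2 : t = r1
          · subst a2
            by_cases a3 : t' = r0
            · subst a3
              rw [e0, e1] at htt
              exact absurd (congrArg Prod.snd htt) (other_ne ε)
            · by_cases a4 : t' = t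
              · exact a4.symm
              · rw [e1, e2 t' a3 a4] at htt
                exact absurd htt.symm (hb _ _)
          · rw [e2 t a1 a2] at htt
            by_cases a3 : t' = r0
            · subst a3
              rw [e0] at htt
              exact absurd htt (hb _ _)
            · by_cases a4 : t' = r1
              · subst a4
                rw [e1] at htt
                exact absurd htt (hb _ _)
              · rw [e2 t' a3 a4] at htt
                exact hs htt
      have hs'p : Paired s' := by
        intro t x δ' ht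
        by_cases a1 : t = r0
        · subst a1
          rw [e0] at ht
          obtain ⟨rfl, rfl⟩ := Prod.mk.inj ht
          exact ⟨r1, e1⟩
        · by_cases a2 : t = r1
          · subst a2
            rw [e1] at ht
            obtain ⟨rfl, rfl⟩ := Prod.mk.inj ht
            refine ⟨r0, ?_⟩
            rw [other_other, e0]
          · rw [e2 t a1 a2] at ht
            obtain ⟨t', ht'⟩ := hp t x δ' ht
            have hxa : x ≠ a := by
              rintro rfl
              rcases eq_or_other ε δ' with rfl | rfl
              · exact a1 (hs (ht.trans hsr.symm))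
              · exact a2 (hs (ht.trans hr1.symm))
            refine ⟨t', ?_⟩
            rw [e2 t' ?_ ?_, ht']
            · rintro rfl
              rw [hsr] at ht'
              exact hxa (congrArg Prod.fst ht').symm
            · rintro rfl
              rw [hr1] at ht'
              exact hxa (congrArg Prod.fst ht').symm
      have hlt : (Finset.univ.filter fun r => ∀ t, s' r ≠ s0 t).card ≤ m := by
        have h1 : (Finset.univ.filter fun r => ∀ t, s' r ≠ s0 t) ⊆
            (Finset.univ.filter fun r => ∀ t, s r ≠ s0 t).erase r0 := by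
          intro t ht
          rw [Finset.mem_filter] at ht
          have a1 : t ≠ r0 := by
            rintro rfl
            obtain ⟨t', ht'⟩ := hb0 ε
            exact ht.2 t' (e0.trans ht'.symm)
          have a2 : t ≠ r1 := by
            rintro rfl
            obtain ⟨t', ht'⟩ := hb0 (1 - ε)
            exact ht.2 t' (e1.trans ht'.symm)
          rw [Finset.mem_erase, Finset.mem_filter]
          refine ⟨a1, Finset.mem_univ _, ?_⟩
          rw [← e2 t a1 a2]
          exact ht.2
        have h2 : r0 ∈ (Finset.univ.filter fun r => ∀ t, s r ≠ s0 t) := by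
          rw [Finset.mem_filter]
          exact ⟨Finset.mem_univ _, fun t => (hr0 t).symm⟩
        have h3 := Finset.card_le_card h1
        rw [Finset.card_erase_of_mem h2] at h3
        omega
      rw [ih s' hs'i hs'p hlt, mul_zero]

omit [Fintype κ] in
lemma zero_of_paired' (h : Exch e ψ) {s0 : N → κ × Fin 2} (hs0 : Function.Injective s0)
    (hp0 : Paired s0) (h0 : ψ (fun t => e (s0 t)) = 0) {s : N → κ × Fin 2}
    (hs : Function.Injective s) (hp : Paired s) : ψ (fun t => e (s t)) = 0 :=
  zero_of_paired h hs0 hp0 h0 _ s hs hp le_rfl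

end Pool.Agent.W5h86.LZ
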