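import Pool.Agent.W5h86.LZ.Struct

set_option autoImplicit false

/-!
# The orthonormal basis adapted to the Lie algebra
-/

open Matrix

namespace Pool.Agent.W5h86.LZ

variable {ι : Type} [Fintype ι] [DecidableEq ι] {𝔥 : Submodule ℝ (Matrix ι ι ℂ)} {p q : ι}

lemma GD.exists_fam (h : GD 𝔥 p q) {r : ι} (hrp : r ≠ p) (hrq : r ≠ q) (s : Finset ι)
    (hp : p ∉ s) (hq : q ∉ s) : ∃ f : ι → ι → ℂ, (∀ i ∈ s, f i ∈ AA 𝔥 q p) ∧
      ∀ i ∈ s, ∀ j ∈ s, sp (f i) (f j) = if i = j then 1 else 0 := by
  induction s using Finset.induction_on with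
  | empty => exact ⟨0, by simp, by simp⟩
  | insert a s ha ih =>
    rw [Finset.mem_insert, not_or] at hp hq
    obtain ⟨f, hf1, hf2⟩ := ih hp.2 hq.2
    set F : Submodule ℂ (ι → ℂ) := Submodule.span ℂ (f '' (s : Set ι)) with hF
    obtain ⟨b, hb, hbF⟩ : ∃ b ∈ AA 𝔥 q p, b ∉ F := by
      by_contra hcon
      push Not at hcon
      have h1 : SA 𝔥 q p ≤ F := Submodule.span_le.2 hcon
      have h2 := h.top hrp hrq
      let Ψ : (ι → ℂ) →ₗ[ℂ] (ι → ℂ) :=
        { toFun := fun c => ∑ i ∈ s, c i • f i + c p • ee p + c q • ee q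
          map_add' := fun x y => by
            simp only [Pi.add_apply, add_smul, Finset.sum_add_distrib]
            abel
          map_smul' := fun m x => by
            simp only [Pi.smul_apply, smul_eq_mul, RingHom.id_apply, smul_add, Finset.smul_sum,
              smul_smul] }
      have hΨ : ∀ c, Ψ c = ∑ i ∈ s, c i • f i + c p • ee p + c q • ee q := fun c => rfl
      have hsurj : Function.Surjective Ψ := by
        rw [← LinearMap.range_eq_top, eq_top_iff, ← h2]
        refine sup_le (sup_le (h1.trans ?_) ?_) ?_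
        · rw [hF, Submodule.span_le]
          rintro _ ⟨i, hi, rfl⟩
          refine ⟨ee i, ?_⟩
          have hi' : i ∈ s := hi
          rw [hΨ, ee_ne (i := i) (j := p) (fun h => hp.2 (h ▸ hi')),
            ee_ne (i := i) (j := q) (fun h => hq.2 (h ▸ hi')), zero_smul, zero_smul, add_zero,
            add_zero, Finset.sum_eq_single i]
          · rw [ee_same, one_smul]
          · intro j _ hj
            rw [ee_ne hj, zero_smul]
          · intro h
            exact absurd hi' h
        · rw [Submodule.span_singleton_le_iff_mem]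
          refine ⟨ee p, ?_⟩
          rw [hΨ, ee_same, ee_ne h.ne.symm, zero_smul, add_zero, one_smul, Finset.sum_eq_zero,
            zero_add]
          intro i hi
          have hip : i ≠ p := fun h => hp.2 (h ▸ hi)
          rw [ee_ne hip, zero_smul]
        · rw [Submodule.span_singleton_le_iff_mem]
          refine ⟨ee q, ?_⟩
          rw [hΨ, ee_same, ee_ne h.ne, zero_smul, add_zero, one_smul, Finset.sum_eq_zero,
            zero_add]
          intro i hi
          have hiq : i ≠ q := fun h => hq.2 (h ▸ hi)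
          rw [ee_ne hiq, zero_smul]
      have hinj : Function.Injective Ψ := LinearMap.injective_iff_surjective.2 hsurj
      have h3 : Ψ (ee a) = Ψ 0 := by
        rw [map_zero, hΨ, ee_ne (i := a) (j := p) hp.1, ee_ne (i := a) (j := q) hq.1, zero_smul,
          zero_smul, add_zero, add_zero]
        refine Finset.sum_eq_zero fun i hi => ?_
        have hia : i ≠ a := fun h => ha (h ▸ hi)
        rw [ee_ne hia, zero_smul]
      have h4 := congrFun (hinj h3) a
      rw [ee_same] at h4
      exact one_ne_zero h4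
    set b' := b - ∑ i ∈ s, sp (f i) b • f i with hb'
    have hb'A : b' ∈ AA 𝔥 q p :=
      Submodule.sub_mem _ hb (Submodule.sum_mem _ fun i hi => h.proj hrp hrq (hf1 i hi) hb)
    have hb'0 : b' ≠ 0 := by
      intro h0
      apply hbF
      rw [sub_eq_zero] at h0
      rw [h0]
      exact Submodule.sum_mem _ fun i hi =>
        Submodule.smul_mem _ _ (Submodule.subset_span ⟨i, hi, rfl⟩)
    have horth : ∀ i ∈ s, sp (f i) b' = 0 := by
      intro i hi
      have h1 : ∀ t : Finset ι, t ⊆ s → sp (f i) (∑ j ∈ t, sp (f j) b • f j) =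
          if i ∈ t then sp (f i) b else 0 := by
        intro t ht
        induction t using Finset.induction_on with
        | empty => simp [sp]
        | insert c t hc ih2 =>
          rw [Finset.sum_insert hc, sp_add_right, ih2 ((Finset.subset_insert _ _).trans ht),
            sp_smul_right, hf2 i hi c (ht (Finset.mem_insert_self _ _))]
          by_cases hic : i = c
          · subst hic
            simp [hc]
          · simp [hic]
      rw [hb', sp_sub_right, h1 s (Finset.Subset.refl _), if_pos hi, sub_self]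
    have hpos := sp_self_pos hb'0
    set ρ : ℝ := (Real.sqrt (sp b' b').re)⁻¹ with hρ
    have hρ2 : ρ * ρ * (sp b' b').re = 1 := by
      have h1 : Real.sqrt (sp b' b').re * Real.sqrt (sp b' b').re = (sp b' b').re :=
        Real.mul_self_sqrt hpos.le
      have h2 : Real.sqrt (sp b' b').re ≠ 0 := (Real.sqrt_pos.2 hpos).ne'
      rw [hρ]
      field_simp
      rw [pow_two, h1]
    have hself : sp ((ρ : ℂ) • b') ((ρ : ℂ) • b') = 1 := by
      rw [sp_smul_left, sp_smul_right, sp_self, Complex.star_def, Complex.conj_ofReal,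
        ← Complex.ofReal_mul, ← Complex.ofReal_mul, ← mul_assoc, hρ2, Complex.ofReal_one]
    refine ⟨Function.update f a ((ρ : ℂ) • b'), ?_, ?_⟩
    · intro i hi
      by_cases hia : i = a
      · subst hia
        rw [Function.update_self]
        exact real_smul_mem hb'A ρ
      · rw [Function.update_of_ne hia]
        exact hf1 i (Finset.mem_of_mem_insert_of_ne hi hia)
    · intro i hi j hj
      by_cases hia : i = a
      · subst hia
        by_cases hja : j = i
        · subst hja
          rw [Function.update_self, if_pos rfl, hself]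
        · rw [Function.update_self, Function.update_of_ne hja, if_neg (Ne.symm hja), sp_smul_left,
            sp_swap, horth j (Finset.mem_of_mem_insert_of_ne hj hja), star_zero, mul_zero]
      · by_cases hja : j = a
        · subst hja
          rw [Function.update_self, Function.update_of_ne hia, if_neg hia, sp_smul_right,
            horth i (Finset.mem_of_mem_insert_of_ne hi hia), mul_zero]
        · rw [Function.update_of_ne hia, Function.update_of_ne hja]
          exact hf2 i (Finset.mem_of_mem_insert_of_ne hi hia) j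
            (Finset.mem_of_mem_insert_of_ne hj hja)

lemma J_mulVec {p q : ι} (hpq : p ≠ q) (v : ι → ℂ) (i : ι) :
    (J p q *ᵥ v) i = sg p q i * v (Equiv.swap p q i) := by
  have h1 : (J p q *ᵥ v) i = ∑ j, J p q i j * v j := rfl
  rw [h1, Finset.sum_eq_single (Equiv.swap p q i)]
  · rw [J_apply hpq, if_pos rfl]
  · intro c _ hc
    rw [J_apply hpq, if_neg hc, zero_mul]
  · intro h
    exact absurd (Finset.mem_univ _) h

lemma hf_J_p {p q : ι} (hpq : p ≠ q) (v : ι → ℂ) : hf (J p q) (ee p) v = v q := by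
  have h1 := sp_ee_left (J p q *ᵥ v) p
  unfold sp at h1
  unfold hf
  rw [h1, J_mulVec hpq, Equiv.swap_apply_left]
  simp [sg]

lemma hf_J_q {p q : ι} (hpq : p ≠ q) (v : ι → ℂ) : hf (J p q) (ee q) v = v p := by
  have h1 := sp_ee_left (J p q *ᵥ v) q
  unfold sp at h1
  unfold hf
  rw [h1, J_mulVec hpq, Equiv.swap_apply_right]
  simp [sg]

lemma hf_J_t {p q : ι} (hpq : p ≠ q) {u : ι → ℂ} (hp : u p = 0) (hq : u q = 0) (v : ι → ℂ) :
    hf (J p q) u v = -sp u v := by
  unfold hf sp dotProduct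
  rw [← Finset.sum_neg_distrib]
  refine Finset.sum_congr rfl fun i _ => ?_
  rw [J_mulVec hpq]
  by_cases h1 : i = p
  · subst h1
    rw [Pi.star_apply, hp, star_zero, zero_mul, zero_mul, neg_zero]
  · by_cases h2 : i = q
    · subst h2
      rw [Pi.star_apply, hq, star_zero, zero_mul, zero_mul, neg_zero]
    · rw [Equiv.swap_apply_of_ne_of_ne h1 h2]
      simp [sg, h1, h2]

lemma XX_bracket {a b : ι → ℂ} (ha : a p = 0) (hb : b q = 0) (v : ι → ℂ) :
    (XX p q a * XX q p b - XX q p b * XX p q a) *ᵥ v =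
      (v p * sp a b) • ee p + sp b v • (XX p q a *ᵥ ee q) - (v q * sp b a) • ee q -
        sp a v • (XX q p b *ᵥ ee p) := by
  rw [sub_mulVec, ← mulVec_mulVec, ← mulVec_mulVec, XX_mulVec q p b v, XX_mulVec p q a v,
    mulVec_add, mulVec_add, mulVec_smul, mulVec_smul, mulVec_smul, mulVec_smul,
    XX_v (p := p) (q := q) hb, XX_v (p := q) (q := p) ha, smul_smul, smul_smul]
  abel

/-- the existence of the operators for a pair of indices -/
def Good (𝔥 : Submodule ℝ (Matrix ι ι ℂ)) (B : ι → ι → ℂ) (i j : ι) : Prop :=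
  ∃ T ∈ 𝔥, ∃ c : ℝ, c ≠ 0 ∧ T *ᵥ B j = B i ∧ T *ᵥ B i = (c : ℂ) • B j ∧
    ∀ k, k ≠ i → k ≠ j → T *ᵥ B k = 0

omit [DecidableEq ι] in
lemma Good.symm {B : ι → ι → ℂ} {i j : ι} (h : Good 𝔥 B i j) : Good 𝔥 B j i := by
  obtain ⟨T, hT, c, hc, h1, h2, h3⟩ := h
  have hsm : ∀ (r : ℝ) (v : ι → ℂ), (r • T) *ᵥ v = (r : ℂ) • (T *ᵥ v) := by
    intro r v
    rw [smul_mulVec]
    funext i
    simp
  refine ⟨c⁻¹ • T, 𝔥.smul_mem _ hT, c⁻¹, inv_ne_zero hc, ?_, ?_, fun k hk1 hk2 => ?_⟩
  · rw [hsm, h2, smul_smul, ← Complex.ofReal_mul, inv_mul_cancel₀ hc, Complex.ofReal_one, one_smul]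
  · rw [hsm, h1]
  · rw [hsm, h3 k hk2 hk1, smul_zero]

/-- **The adapted orthonormal basis, graded case.** -/
theorem GD.exists_basis (h : GD 𝔥 p q) {r : ι} (hrp : r ≠ p) (hrq : r ≠ q) :
    ∃ (B : ι → ι → ℂ) (σ : ι → ℝ), (∀ i, σ i ≠ 0) ∧
      (∀ i j, hf (J p q) (B i) (B j) = if i = j then (σ i : ℂ) else 0) ∧
      ∀ i j, i ≠ j → Good 𝔥 B i j := by
  obtain ⟨f, hf1, hf2⟩ := h.exists_fam hrp hrq ((Finset.univ.erase p).erase q) (by simp) (by simp)
  have hmem : ∀ i, i ≠ p → i ≠ q → i ∈ (Finset.univ.erase p).erase q := by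
    intro i h1 h2
    simp [h1, h2]
  have fp : ∀ i, i ≠ p → i ≠ q → f i p = 0 := fun i h1 h2 => (hf1 i (hmem i h1 h2)).2.1
  have fq : ∀ i, i ≠ p → i ≠ q → f i q = 0 := fun i h1 h2 => (hf1 i (hmem i h1 h2)).1
  have fm : ∀ i, i ≠ p → i ≠ q → XX q p (f i) ∈ 𝔥 := fun i h1 h2 => (hf1 i (hmem i h1 h2)).2.2
  have fm' : ∀ i, i ≠ p → i ≠ q → XX p q (f i) ∈ 𝔥 := fun i h1 h2 =>
    (h.le hrp hrq (hf1 i (hmem i h1 h2))).2.2
  have fd : ∀ i, i ≠ p → i ≠ q → ∀ j, j ≠ p → j ≠ q → i ≠ j → sp (f i) (f j) = 0 := by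
    intro i h1 h2 j h3 h4 hij
    rw [hf2 i (hmem i h1 h2) j (hmem j h3 h4), if_neg hij]
  have fo : ∀ i, i ≠ p → i ≠ q → sp (f i) (f i) = 1 := by
    intro i h1 h2
    rw [hf2 i (hmem i h1 h2) i (hmem i h1 h2), if_pos rfl]
  clear hf1 hf2
  set s2 : ℝ := (Real.sqrt 2)⁻¹ with hs2
  have hs : (s2 : ℂ) * s2 * 2 = 1 := by
    have h1 : Real.sqrt 2 * Real.sqrt 2 = 2 := Real.mul_self_sqrt (by norm_num)
    have h2 : Real.sqrt 2 ≠ 0 := (Real.sqrt_pos.2 (by norm_num)).ne'
    have h3 : s2 * s2 * 2 = 1 := by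
      rw [hs2]
      field_simp
      rw [pow_two, h1]
    exact_mod_cast h3
  have hstar : star (s2 : ℂ) = (s2 : ℂ) := Complex.conj_ofReal s2
  clear_value s2
  set B : ι → ι → ℂ := fun i =>
    if i = p then (s2 : ℂ) • (ee p + ee q) else
      if i = q then (s2 : ℂ) • (ee p - ee q) else f i with hB
  have hBp : B p = (s2 : ℂ) • (ee p + ee q) := if_pos rfl
  have hBq : B q = (s2 : ℂ) • (ee p - ee q) := by
    rw [hB]
    simp only [if_neg h.ne.symm, if_true]
  have hBo : ∀ i, i ≠ p → i ≠ q → B i = f i := by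
    intro i h1 h2
    rw [hB]
    simp only [if_neg h1, if_neg h2]
  clear_value B
  have Bpp : B p p = s2 := by rw [hBp]; simp [h.ne]
  have Bpq : B p q = s2 := by rw [hBp]; simp [h.ne.symm]
  have Bqp : B q p = s2 := by rw [hBq]; simp [h.ne]
  have Bqq : B q q = -s2 := by rw [hBq]; simp [h.ne.symm]
  have Bop : ∀ i, i ≠ p → i ≠ q → B i p = 0 := fun i h1 h2 => by rw [hBo i h1 h2, fp i h1 h2]
  have Boq : ∀ i, i ≠ p → i ≠ q → B i q = 0 := fun i h1 h2 => by rw [hBo i h1 h2, fq i h1 h2]
  have spp : ∀ i, i ≠ p → i ≠ q → sp (f i) (B p) = 0 := by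
    intro i h1 h2
    rw [hBp, sp_smul_right, sp_add_right, sp_ee, sp_ee, fp i h1 h2, fq i h1 h2]
    simp
  have spq : ∀ i, i ≠ p → i ≠ q → sp (f i) (B q) = 0 := by
    intro i h1 h2
    rw [hBq, sp_smul_right, sp_sub_right, sp_ee, sp_ee, fp i h1 h2, fq i h1 h2]
    simp
  have spo : ∀ i, i ≠ p → i ≠ q → sp (f i) (B i) = 1 := fun i h1 h2 => by
    rw [hBo i h1 h2, fo i h1 h2]
  have spd : ∀ i, i ≠ p → i ≠ q → ∀ j, j ≠ i → sp (f i) (B j) = 0 := by
    intro i h1 h2 j hj
    by_cases hjp : j = p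
    · subst hjp
      exact spp i h1 h2
    · by_cases hjq : j = q
      · subst hjq
        exact spq i h1 h2
      · rw [hBo j hjp hjq]
        exact fd i h1 h2 j hjp hjq (Ne.symm hj)
  -- the hermitian form
  have hfp : ∀ v, hf (J p q) (B p) v = s2 * (v q + v p) := by
    intro v
    rw [hBp, hf_smul_left, hf_add_left, hf_J_p h.ne, hf_J_q h.ne, hstar]
  have hfq : ∀ v, hf (J p q) (B q) v = s2 * (v q - v p) := by
    intro v
    rw [hBq, hf_smul_left, hf_sub_left, hf_J_p h.ne, hf_J_q h.ne, hstar]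
  have hfo : ∀ i, i ≠ p → i ≠ q → ∀ v, hf (J p q) (B i) v = -sp (f i) v := by
    intro i h1 h2 v
    rw [hBo i h1 h2, hf_J_t h.ne (fp i h1 h2) (fq i h1 h2)]
  refine ⟨B, fun i => if i = p then 1 else -1, fun i => by
    by_cases hip : i = p
    · simp [hip]
    · simp [hip], ?_, ?_⟩
  · intro i j
    beta_reduce
    by_cases hip : i = p
    · subst hip
      rw [hfp]
      by_cases hjp : j = i
      · subst hjp
        rw [Bpp, Bpq, if_pos rfl, if_pos rfl]
        push_cast
        linear_combination hs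
      · rw [if_neg (Ne.symm hjp)]
        by_cases hjq : j = q
        · subst hjq
          rw [Bqq, Bqp]
          ring
        · rw [Bop j hjp hjq, Boq j hjp hjq]
          ring
    · by_cases hiq : i = q
      · subst hiq
        rw [hfq]
        by_cases hjq : j = i
        · subst hjq
          rw [Bqq, Bqp, if_pos rfl, if_neg h.ne.symm]
          push_cast
          linear_combination -hs
        · rw [if_neg (Ne.symm hjq)]
          by_cases hjp : j = p
          · subst hjp
            rw [Bpp, Bpq]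
            ring
          · rw [Bop j hjp hjq, Boq j hjp hjq]
            ring
      · rw [hfo i hip hiq]
        by_cases hij : i = j
        · subst hij
          rw [spo i hip hiq, if_pos rfl, if_neg hip]
          push_cast
          ring
        · rw [spd i hip hiq j (Ne.symm hij), if_neg hij, neg_zero]
  · have hsm : ∀ (T : Matrix ι ι ℂ) (r : ℝ) (v : ι → ℂ), (r • T) *ᵥ v = (r : ℂ) • (T *ᵥ v) := by
      intro T r v
      rw [smul_mulVec]
      funext i
      simp
    have gp : ∀ j, j ≠ p → j ≠ q → Good 𝔥 B p j := by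
      intro j h1 h2
      have hT : ∀ v, (s2 • (XX p q (f j) + XX q p (f j))) *ᵥ v =
          (s2 * (v q + v p)) • f j + (s2 * sp (f j) v) • (ee p + ee q) := by
        intro v
        rw [hsm, add_mulVec, XX_mulVec, XX_mulVec]
        funext i
        simp only [Pi.add_apply, Pi.smul_apply, smul_eq_mul]
        ring
      refine ⟨s2 • (XX p q (f j) + XX q p (f j)),
        𝔥.smul_mem _ (𝔥.add_mem (fm' j h1 h2) (fm j h1 h2)), 1, one_ne_zero, ?_, ?_, ?_⟩
      · rw [hT, Bop j h1 h2, Boq j h1 h2, spo j h1 h2, hBp, add_zero, mul_zero, zero_smul, zero_add,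
          mul_one]
      · rw [hT, Bpp, Bpq, spp j h1 h2, mul_zero, zero_smul, add_zero, hBo j h1 h2]
        congr 1
        push_cast
        linear_combination hs
      · intro k hkp hkj
        rw [hT, spd j h1 h2 k hkj, mul_zero, zero_smul, add_zero]
        by_cases hkq : k = q
        · subst hkq
          rw [Bqq, Bqp, neg_add_cancel, mul_zero, zero_smul]
        · rw [Bop k hkp hkq, Boq k hkp hkq, add_zero, mul_zero, zero_smul]
    have gq : ∀ j, j ≠ p → j ≠ q → Good 𝔥 B q j := by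
      intro j h1 h2
      have hT : ∀ v, (s2 • (XX p q (f j) - XX q p (f j))) *ᵥ v =
          (s2 * (v q - v p)) • f j + (s2 * sp (f j) v) • (ee p - ee q) := by
        intro v
        rw [hsm, sub_mulVec, XX_mulVec, XX_mulVec]
        funext i
        simp only [Pi.add_apply, Pi.sub_apply, Pi.smul_apply, smul_eq_mul]
        ring
      refine ⟨s2 • (XX p q (f j) - XX q p (f j)),
        𝔥.smul_mem _ (𝔥.sub_mem (fm' j h1 h2) (fm j h1 h2)), -1, by norm_num, ?_, ?_, ?_⟩
      · rw [hT, Bop j h1 h2, Boq j h1 h2, spo j h1 h2, hBq, sub_zero, mul_zero, zero_smul, zero_add,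
          mul_one]
      · rw [hT, Bqp, Bqq, spq j h1 h2, mul_zero, zero_smul, add_zero, hBo j h1 h2]
        congr 1
        push_cast
        linear_combination -hs
      · intro k hkq hkj
        rw [hT, spd j h1 h2 k hkj, mul_zero, zero_smul, add_zero]
        by_cases hkp : k = p
        · subst hkp
          rw [Bpp, Bpq, sub_self, mul_zero, zero_smul]
        · rw [Bop k hkp hkq, Boq k hkp hkq, sub_zero, mul_zero, zero_smul]
    have hbr : ∀ i, i ≠ p → i ≠ q → ∀ j, j ≠ p → j ≠ q → ∀ v,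
        (XX p q (f i) * XX q p (f j) - XX q p (f j) * XX p q (f i)) *ᵥ v =
        (v p * sp (f i) (f j)) • ee p + sp (f j) v • f i - (v q * sp (f j) (f i)) • ee q -
        sp (f i) v • f j := by
      intro i h1 h2 j h3 h4 v
      rw [XX_bracket (fp i h1 h2) (fq j h3 h4), XX_q (fq i h1 h2),
        XX_q (p := q) (q := p) (fp j h3 h4)]
    have gpq : Good 𝔥 B p q := by
      refine ⟨_, h.br _ (fm' r hrp hrq) _ (fm r hrp hrq), 1, one_ne_zero, ?_, ?_, ?_⟩
      · rw [hbr r hrp hrq r hrp hrq, Bqp, Bqq, spq r hrp hrq, fo r hrp hrq, hBp]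
        funext i
        simp only [Pi.add_apply, Pi.sub_apply, Pi.smul_apply, smul_eq_mul]
        ring
      · rw [hbr r hrp hrq r hrp hrq, Bpp, Bpq, spp r hrp hrq, fo r hrp hrq, hBq]
        funext i
        simp only [Pi.add_apply, Pi.sub_apply, Pi.smul_apply, smul_eq_mul]
        push_cast
        ring
      · intro k hkp hkq
        rw [hbr r hrp hrq r hrp hrq, Bop k hkp hkq, Boq k hkp hkq]
        funext i
        simp only [Pi.add_apply, Pi.sub_apply, Pi.smul_apply, smul_eq_mul, Pi.zero_apply]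
        ring
    have go : ∀ i, i ≠ p → i ≠ q → ∀ j, j ≠ p → j ≠ q → i ≠ j → Good 𝔥 B i j := by
      intro i h1 h2 j h3 h4 hij
      refine ⟨_, h.br _ (fm' i h1 h2) _ (fm j h3 h4), -1, by norm_num, ?_, ?_, ?_⟩
      · rw [hbr i h1 h2 j h3 h4, fd i h1 h2 j h3 h4 hij, fd j h3 h4 i h1 h2 (Ne.symm hij),
          spo j h3 h4, spd i h1 h2 j (Ne.symm hij), hBo i h1 h2]
        simp
      · rw [hbr i h1 h2 j h3 h4, fd i h1 h2 j h3 h4 hij, fd j h3 h4 i h1 h2 (Ne.symm hij),
          spo i h1 h2, spd j h3 h4 i hij, hBo j h3 h4]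
        simp
      · intro k hki hkj
        rw [hbr i h1 h2 j h3 h4, fd i h1 h2 j h3 h4 hij, fd j h3 h4 i h1 h2 (Ne.symm hij),
          spd i h1 h2 k hki, spd j h3 h4 k hkj]
        simp
    intro i j hij
    by_cases hip : i = p
    · subst hip
      by_cases hjq : j = q
      · subst hjq
        exact gpq
      · exact gp j (Ne.symm hij) hjq
    · by_cases hiq : i = q
      · subst hiq
        by_cases hjp : j = p
        · subst hjp
          exact gpq.symm
        · exact gq j hjp (Ne.symm hij)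
      · by_cases hjp : j = p
        · subst hjp
          exact (gp i hip hiq).symm
        · by_cases hjq : j = q
          · subst hjq
            exact (gq i hip hiq).symm
          · exact go i hip hiq j hjp hjq hij

/-- **Lie algebras of Lorentzian type.** -/
theorem exists_basis {H : Matrix ι ι ℂ} (h : LieData 𝔥 H) (hL : Lor H) (hdet : H.det ≠ 0)
    {u : ι → ℂ} (hu : 0 < qf H u) {p q r : ι} (hpq : p ≠ q) (hrp : r ≠ p) (hrq : r ≠ q) :
    ∃ (B : ι → ι → ℂ) (σ : ι → ℝ), (∀ i, σ i ≠ 0) ∧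
      (∀ i j, hf H (B i) (B j) = if i = j then (σ i : ℂ) else 0) ∧
      ∀ i j, i ≠ j → Good 𝔥 B i j := by
  obtain ⟨P, Q, hPQ, hQP, hJ, hG⟩ := exists_graded h hL hdet hu hpq
  obtain ⟨B, σ, h1, h2, h3⟩ := hG.exists_basis hrp hrq
  refine ⟨fun i => P *ᵥ B i, σ, h1, fun i j => ?_, fun i j hij => ?_⟩
  · rw [← h2 i j, ← hJ]
    unfold hf
    rw [star_mulVec, ← dotProduct_mulVec, mulVec_mulVec, mulVec_mulVec, Matrix.mul_assoc]
  · obtain ⟨T, hT, c, hc, h4, h5, h6⟩ := h3 i j hij
    rw [Submodule.mem_comap, conjL_apply] at hT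
    have h7 : ∀ v, (P * T * Q) *ᵥ (P *ᵥ v) = P *ᵥ (T *ᵥ v) := by
      intro v
      rw [mulVec_mulVec, mulVec_mulVec, Matrix.mul_assoc (P * T), hQP, Matrix.mul_one]
    refine ⟨P * T * Q, hT, c, hc, ?_, ?_, fun k hk1 hk2 => ?_⟩
    · rw [h7, h4]
    · rw [h7, h5, mulVec_smul]
    · rw [h7, h6 k hk1 hk2, mulVec_zero]

end Pool.Agent.W5h86.LZ
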