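import Pool.Agent.W5h86.LZ.Psd

set_option autoImplicit false

/-!
# Irreducible Lie algebras of matrices which preserve an indefinite hermitian form
-/

open Matrix

namespace Pool.Agent.W5h86.LZ

variable {ι : Type} [Fintype ι] [DecidableEq ι]

/-- the real trace form -/
def tf (X Y : Matrix ι ι ℂ) : ℝ := (X * Y).trace.re

omit [DecidableEq ι] in
lemma tf_comm (X Y : Matrix ι ι ℂ) : tf X Y = tf Y X := by
  unfold tf
  rw [trace_mul_comm]

omit [DecidableEq ι] in
lemma tf_add_right (X Y Z : Matrix ι ι ℂ) : tf X (Y + Z) = tf X Y + tf X Z := by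
  unfold tf
  rw [Matrix.mul_add, trace_add, Complex.add_re]

omit [DecidableEq ι] in
lemma tf_smul_right (c : ℝ) (X Y : Matrix ι ι ℂ) : tf X (c • Y) = c * tf X Y := by
  unfold tf
  rw [Matrix.mul_smul, trace_smul, Complex.real_smul, Complex.mul_re, Complex.ofReal_re,
    Complex.ofReal_im, zero_mul, sub_zero]

omit [DecidableEq ι] in
lemma tf_add_left (X Y Z : Matrix ι ι ℂ) : tf (X + Y) Z = tf X Z + tf Y Z := by
  rw [tf_comm, tf_add_right, tf_comm Z X, tf_comm Z Y]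

omit [DecidableEq ι] in
lemma tf_smul_left (c : ℝ) (X Y : Matrix ι ι ℂ) : tf (c • X) Y = c * tf X Y := by
  rw [tf_comm, tf_smul_right, tf_comm]

/-- the trace form as a bilinear form -/
noncomputable def tfL : Matrix ι ι ℂ →ₗ[ℝ] Matrix ι ι ℂ →ₗ[ℝ] ℝ :=
  LinearMap.mk₂ ℝ tf tf_add_left (fun c X Y => by rw [tf_smul_left, smul_eq_mul]) tf_add_right
    (fun c X Y => by rw [tf_smul_right, smul_eq_mul])

omit [DecidableEq ι] in
lemma tfL_apply (X Y : Matrix ι ι ℂ) : tfL X Y = tf X Y := rfl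

/-- An irreducible real Lie algebra of skew-hermitian matrices. -/
structure LieData (𝔥 : Submodule ℝ (Matrix ι ι ℂ)) (H : Matrix ι ι ℂ) : Prop where
  br : ∀ X ∈ 𝔥, ∀ Y ∈ 𝔥, X * Y - Y * X ∈ 𝔥
  herm : H.IsHermitian
  skew : ∀ X ∈ 𝔥, Xᴴ * H + H * X = 0
  irr : ∀ N : Submodule ℂ (ι → ℂ), (∀ X ∈ 𝔥, ∀ u ∈ N, X *ᵥ u ∈ N) → N = ⊥ ∨ N = ⊤
  nd : ∀ X ∈ 𝔥, (∀ Y ∈ 𝔥, tf X Y = 0) → X = 0

variable {𝔥 : Submodule ℝ (Matrix ι ι ℂ)} {H : Matrix ι ι ℂ}

omit [DecidableEq ι] in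
/-- orthonormal bases -/
lemma exists_onb (hnd : ∀ X ∈ 𝔥, (∀ Y ∈ 𝔥, tf X Y = 0) → X = 0)
    (hneg : ∀ X ∈ 𝔥, tf X X ≤ 0) : ∃ (d : ℕ) (w : Fin d → Matrix ι ι ℂ), (∀ i, w i ∈ 𝔥) ∧
      ∀ Y ∈ 𝔥, Y = -∑ i, tf (w i) Y • w i := by
  classical
  -- positivity
  have hpos : ∀ X ∈ 𝔥, X ≠ 0 → tf X X < 0 := by
    intro X hX hX0
    refine lt_of_le_of_ne (hneg X hX) fun h0 => hX0 (hnd X hX fun Y hY => ?_)
    have h1 : ∀ t : ℝ, 2 * t * tf X Y + tf Y Y ≤ 0 := by
      intro t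
      have h2 := hneg (t • X + Y) (𝔥.add_mem (𝔥.smul_mem t hX) hY)
      rw [tf_add_left, tf_add_right, tf_add_right, tf_smul_left, tf_smul_left, tf_smul_right,
        tf_smul_right, h0, tf_comm Y X] at h2
      linarith
    by_contra hne
    have h2 := h1 ((1 - tf Y Y) / (2 * tf X Y))
    have h3 : 2 * ((1 - tf Y Y) / (2 * tf X Y)) * tf X Y = 1 - tf Y Y := by
      field_simp
    rw [h3] at h2
    linarith
  let B : LinearMap.BilinForm ℝ 𝔥 := (tfL.comp 𝔥.subtype).compl₂ 𝔥.subtype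
  have hB : ∀ X Y : 𝔥, B X Y = tf X.1 Y.1 := fun X Y => rfl
  have hsym : LinearMap.IsSymm B := ⟨fun X Y => by rw [RingHom.id_apply, hB, hB, tf_comm]⟩
  obtain ⟨v, hv⟩ := LinearMap.BilinForm.exists_orthogonal_basis hsym
  have hv0 : ∀ i, (v i : Matrix ι ι ℂ) ≠ 0 := fun i h => v.ne_zero i (Subtype.ext h)
  have hr : ∀ i, 0 < -tf (v i).1 (v i).1 := fun i => by
    have := hpos _ (v i).2 (hv0 i)
    linarith
  refine ⟨_, fun i => (Real.sqrt (-tf (v i).1 (v i).1))⁻¹ • (v i).1,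
    fun i => 𝔥.smul_mem _ (v i).2, fun Y hY => ?_⟩
  have h1 : Y = ∑ i, v.repr ⟨Y, hY⟩ i • (v i).1 := by
    have h2 := congrArg (fun Z : 𝔥 => Z.1) (v.sum_repr ⟨Y, hY⟩)
    simp only [Submodule.coe_sum, Submodule.coe_smul] at h2
    exact h2.symm
  have h2 : ∀ i, tf (v i).1 Y = v.repr ⟨Y, hY⟩ i * tf (v i).1 (v i).1 := by
    intro i
    have h3 : tf (v i).1 Y = B (v i) ⟨Y, hY⟩ := rfl
    rw [h3]
    conv_lhs => rw [← v.sum_repr ⟨Y, hY⟩]
    rw [map_sum, Finset.sum_eq_single i]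
    · rw [map_smul, smul_eq_mul, hB]
    · intro j _ hj
      rw [map_smul, smul_eq_mul]
      have h4 : B (v i) (v j) = 0 := hv (Ne.symm hj)
      rw [h4, mul_zero]
    · intro h
      exact absurd (Finset.mem_univ i) h
  conv_lhs => rw [h1]
  rw [← Finset.sum_neg_distrib]
  refine Finset.sum_congr rfl fun i _ => ?_
  rw [tf_smul_left, h2, smul_smul, ← neg_smul]
  congr 1
  have h3 := Real.mul_self_sqrt (hr i).le
  have h4 : Real.sqrt (-tf (v i).1 (v i).1) ≠ 0 := (Real.sqrt_pos.2 (hr i)).ne'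
  field_simp
  rw [pow_two, h3]
  ring

/-- the averaging operator -/
noncomputable def avg {d : ℕ} (w : Fin d → Matrix ι ι ℂ) (M : Matrix ι ι ℂ) : Matrix ι ι ℂ :=
  ∑ i, (w i)ᴴ * M * w i

section avg

variable {d : ℕ} {w : Fin d → Matrix ι ι ℂ}

omit [DecidableEq ι] in
lemma avg_add (M N : Matrix ι ι ℂ) : avg w (M + N) = avg w M + avg w N := by
  unfold avg
  rw [← Finset.sum_add_distrib]
  refine Finset.sum_congr rfl fun i _ => ?_
  rw [Matrix.mul_add, Matrix.add_mul]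

omit [DecidableEq ι] in
lemma avg_sub (M N : Matrix ι ι ℂ) : avg w (M - N) = avg w M - avg w N := by
  unfold avg
  rw [← Finset.sum_sub_distrib]
  refine Finset.sum_congr rfl fun i _ => ?_
  rw [Matrix.mul_sub, Matrix.sub_mul]

omit [DecidableEq ι] in
lemma avg_smul (c : ℂ) (M : Matrix ι ι ℂ) : avg w (c • M) = c • avg w M := by
  unfold avg
  rw [Finset.smul_sum]
  refine Finset.sum_congr rfl fun i _ => ?_
  rw [Matrix.mul_smul, Matrix.smul_mul]

omit [DecidableEq ι] in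
lemma Psd.avg {M : Matrix ι ι ℂ} (hM : Psd M) : Psd (avg w M) :=
  Psd.sum _ fun i _ => hM.conj (w i)

omit [DecidableEq ι] in
lemma qf_avg (M : Matrix ι ι ℂ) (u : ι → ℂ) : qf (avg w M) u = ∑ i, qf M (w i *ᵥ u) := by
  unfold LZ.avg
  rw [qf_sum]
  exact Finset.sum_congr rfl fun i _ => qf_conj _ _ _

omit [DecidableEq ι] in
lemma isHermitian_avg {M : Matrix ι ι ℂ} (hM : M.IsHermitian) : (avg w M).IsHermitian := by
  unfold Matrix.IsHermitian LZ.avg
  rw [conjTranspose_sum]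
  refine Finset.sum_congr rfl fun i _ => ?_
  rw [conjTranspose_mul, conjTranspose_mul, conjTranspose_conjTranspose, hM.eq, Matrix.mul_assoc]

omit [DecidableEq ι] in
lemma continuous_avg : Continuous (avg w) := by
  unfold LZ.avg
  exact continuous_finsetSum _ fun i _ =>
    (continuous_const.matrix_mul continuous_id).matrix_mul continuous_const

omit [DecidableEq ι] in
/-- the averaging operator commutes with the Lie algebra -/
lemma avg_equivariant (hbr : ∀ X ∈ 𝔥, ∀ Y ∈ 𝔥, X * Y - Y * X ∈ 𝔥) (hw : ∀ i, w i ∈ 𝔥)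
    (hexp : ∀ Y ∈ 𝔥, Y = -∑ i, tf (w i) Y • w i) {X : Matrix ι ι ℂ} (hX : X ∈ 𝔥)
    (M : Matrix ι ι ℂ) : avg w (Xᴴ * M + M * X) = Xᴴ * avg w M + avg w M * X := by
  set c : Fin d → Fin d → ℝ := fun j i => -tf (w j) (X * w i - w i * X) with hc
  have hanti : ∀ i j, c i j = -c j i := by
    intro i j
    simp only [hc, tf, Matrix.mul_sub, trace_sub, Complex.sub_re]
    have e1 : (w i * (X * w j)).trace = (w j * (w i * X)).trace := by
      rw [← Matrix.mul_assoc, trace_mul_comm]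
    have e2 : (w i * (w j * X)).trace = (w j * (X * w i)).trace := by
      rw [← Matrix.mul_assoc (w j), ← trace_mul_comm (w i)]
    rw [e1, e2]
    ring
  have hbrk : ∀ i, X * w i - w i * X = ∑ j, c j i • w j := by
    intro i
    conv_lhs => rw [hexp _ (hbr X hX _ (hw i))]
    rw [← Finset.sum_neg_distrib]
    exact Finset.sum_congr rfl fun j _ => by rw [neg_smul]
  have hbrk' : ∀ i, (w i)ᴴ * Xᴴ - Xᴴ * (w i)ᴴ = ∑ j, c j i • (w j)ᴴ := by
    intro i
    have h1 := congrArg conjTranspose (hbrk i)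
    rw [conjTranspose_sub, conjTranspose_mul, conjTranspose_mul, conjTranspose_sum] at h1
    rw [h1]
    refine Finset.sum_congr rfl fun j _ => ?_
    rw [conjTranspose_smul, star_trivial]
  have h1 : avg w (Xᴴ * M + M * X) - (Xᴴ * avg w M + avg w M * X) =
      ∑ i, (((w i)ᴴ * Xᴴ - Xᴴ * (w i)ᴴ) * M * w i + (w i)ᴴ * M * (X * w i - w i * X)) := by
    unfold LZ.avg
    rw [Finset.mul_sum, Finset.sum_mul, ← Finset.sum_add_distrib, ← Finset.sum_sub_distrib]
    refine Finset.sum_congr rfl fun i _ => ?_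
    noncomm_ring
  have h2 : ∑ i, (((w i)ᴴ * Xᴴ - Xᴴ * (w i)ᴴ) * M * w i +
      (w i)ᴴ * M * (X * w i - w i * X)) = 0 := by
    have h3 : ∀ i, ((w i)ᴴ * Xᴴ - Xᴴ * (w i)ᴴ) * M * w i + (w i)ᴴ * M * (X * w i - w i * X) =
        ∑ j, (c j i • ((w j)ᴴ * M * w i) + c j i • ((w i)ᴴ * M * w j)) := by
      intro i
      rw [hbrk, hbrk', Finset.sum_mul, Finset.sum_mul, Finset.mul_sum, ← Finset.sum_add_distrib]
      refine Finset.sum_congr rfl fun j _ => ?_
      rw [Matrix.smul_mul, Matrix.smul_mul, Matrix.mul_smul]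
    rw [Finset.sum_congr rfl fun i _ => h3 i]
    simp only [Finset.sum_add_distrib]
    have h4 : ∑ i, ∑ j, c j i • ((w i)ᴴ * M * w j) = ∑ i, ∑ j, c i j • ((w j)ᴴ * M * w i) := by
      rw [Finset.sum_comm]
    rw [h4, ← Finset.sum_add_distrib]
    refine Finset.sum_eq_zero fun i _ => ?_
    rw [← Finset.sum_add_distrib]
    refine Finset.sum_eq_zero fun j _ => ?_
    have h5 : c j i + c i j = 0 := by
      rw [hanti i j, add_neg_cancel]
    rw [← add_smul, h5, zero_smul]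
  rw [← sub_eq_zero, h1, h2]

/-- Subspaces stable under the `w i`. -/
def Irr (w : Fin d → Matrix ι ι ℂ) : Prop :=
  ∀ N : Submodule ℂ (ι → ℂ), (∀ i, ∀ u ∈ N, w i *ᵥ u ∈ N) → N = ⊥ ∨ N = ⊤

omit [DecidableEq ι] in
/-- A semidefinite eigenvector with a kernel is zero. -/
lemma eq_zero_of_ker (hirr : Irr w) {M : Matrix ι ι ℂ} (hM : Psd M) {κ : ℝ}
    (h : avg w M = (κ : ℂ) • M) {u : ι → ℂ} (hu0 : u ≠ 0) (hu : M *ᵥ u = 0) : M = 0 := by
  classical
  let N : Submodule ℂ (ι → ℂ) := LinearMap.ker M.mulVecLin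
  have hN : ∀ u, u ∈ N ↔ M *ᵥ u = 0 := fun u => Iff.rfl
  have hst : ∀ i, ∀ u ∈ N, w i *ᵥ u ∈ N := by
    intro i u hu
    rw [hN] at hu ⊢
    have h2 : qf (LZ.avg w M) u = 0 := by
      rw [h, qf_smul]
      unfold qf
      rw [hu, dotProduct_zero, Complex.zero_re, mul_zero]
    rw [qf_avg, Finset.sum_eq_zero_iff_of_nonneg (fun i _ => hM.2 _)] at h2
    exact hM.ker (h2 i (Finset.mem_univ i))
  rcases hirr N hst with h1 | h1
  · have h2 := (hN u).2 hu
    rw [h1, Submodule.mem_bot] at h2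
    exact absurd h2 hu0
  · ext i j
    have h2 : Pi.single j 1 ∈ N := by
      rw [h1]
      trivial
    rw [hN, mulVec_single_one] at h2
    exact congrFun h2 i

/-- the positive operator `1 + avg` improves positivity -/
lemma improve (hirr : Irr w) {M : Matrix ι ι ℂ} (hM : Psd M) (hM0 : M ≠ 0) :
    ∃ N : ℕ, Psd ((fun M => M + avg w M)^[N] M) ∧
      ∀ u, u ≠ 0 → 0 < qf ((fun M => M + avg w M)^[N] M) u := by
  set Ψ : Matrix ι ι ℂ → Matrix ι ι ℂ := fun M => M + avg w M with hΨ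
  have hpsd : ∀ n, Psd (Ψ^[n] M) := by
    intro n
    induction n with
    | zero => exact hM
    | succ n ih =>
      rw [Function.iterate_succ_apply']
      exact ih.add ih.avg
  have hne : ∀ n, Ψ^[n] M ≠ 0 := by
    intro n
    induction n with
    | zero => exact hM0
    | succ n ih =>
      rw [Function.iterate_succ_apply']
      intro h
      have h1 := (hpsd n).trace_pos ih
      have h2 := ((hpsd n).avg (w := w)).trace_nonneg
      have h3 := congrArg (fun A : Matrix ι ι ℂ => A.trace.re) h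
      simp only [hΨ, trace_add, Complex.add_re, trace_zero, Complex.zero_re] at h3
      linarith
  let K : ℕ → Submodule ℂ (ι → ℂ) := fun n => LinearMap.ker (Ψ^[n] M).mulVecLin
  have hK : ∀ n u, u ∈ K n ↔ (Ψ^[n] M) *ᵥ u = 0 := fun n u => Iff.rfl
  have hstep : ∀ n u, u ∈ K (n + 1) → u ∈ K n ∧ ∀ i, w i *ᵥ u ∈ K n := by
    intro n u hu
    rw [hK, Function.iterate_succ_apply'] at hu
    have h1 : qf (Ψ (Ψ^[n] M)) u = 0 := by
      unfold qf
      rw [hu, dotProduct_zero, Complex.zero_re]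
    have h2 : qf (Ψ (Ψ^[n] M)) u = qf (Ψ^[n] M) u + ∑ i, qf (Ψ^[n] M) (w i *ᵥ u) := by
      simp only [hΨ]
      rw [qf_add_left, qf_avg]
    have h3 := (hpsd n).2 u
    have h4 : 0 ≤ ∑ i, qf (Ψ^[n] M) (w i *ᵥ u) := Finset.sum_nonneg fun i _ => (hpsd n).2 _
    rw [h2] at h1
    have h5 : qf (Ψ^[n] M) u = 0 := by linarith
    have h6 : ∑ i, qf (Ψ^[n] M) (w i *ᵥ u) = 0 := by linarith
    rw [Finset.sum_eq_zero_iff_of_nonneg (fun i _ => (hpsd n).2 _)] at h6
    exact ⟨(hpsd n).ker h5, fun i => (hpsd n).ker (h6 i (Finset.mem_univ i))⟩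
  let f : ℕ →o (Submodule ℂ (ι → ℂ))ᵒᵈ :=
    ⟨K, monotone_nat_of_le_succ fun n u hu => (hstep n u hu).1⟩
  obtain ⟨N, hN⟩ := IsArtinian.monotone_stabilizes f
  have hN' : K N = K (N + 1) := hN (N + 1) (Nat.le_succ N)
  refine ⟨N, hpsd N, fun u hu => ?_⟩
  rcases hirr (K N) (fun i u hu => by
    rw [hN'] at hu
    exact (hstep N u hu).2 i) with h1 | h1
  · refine lt_of_le_of_ne ((hpsd N).2 u) fun h2 => ?_
    have h3 : u ∈ K N := (hpsd N).ker h2.symm
    rw [h1, Submodule.mem_bot] at h3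
    exact hu h3
  · exfalso
    apply hne N
    ext i j
    have h2 : Pi.single j 1 ∈ K N := by
      rw [h1]
      trivial
    rw [hK, mulVec_single_one] at h2
    exact congrFun h2 i

/-- **Perron-Frobenius**: there is a semidefinite eigenvector. -/
lemma exists_eigenvector [Nonempty ι] (hirr : Irr w) :
    ∃ (κ : ℝ) (M : Matrix ι ι ℂ), Psd M ∧ M.trace = 1 ∧ avg w M = (κ : ℂ) • M := by
  set S : Set (Matrix ι ι ℂ) := {M | Psd M ∧ M.trace = 1} with hS
  have hcard : (Fintype.card ι : ℝ) ≠ 0 := by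
    exact_mod_cast Fintype.card_ne_zero
  have hS0 : S.Nonempty := by
    refine ⟨(((Fintype.card ι : ℝ)⁻¹ : ℝ) : ℂ) • 1, Psd.smul ⟨isHermitian_one, fun u => ?_⟩
      (by positivity), ?_⟩
    · unfold qf
      rw [one_mulVec]
      exact dot_self_nonneg u
    · rw [trace_smul, trace_one, smul_eq_mul]
      push_cast
      exact inv_mul_cancel₀ (by exact_mod_cast hcard)
  have htc : Continuous fun M : Matrix ι ι ℂ => (avg w M).trace.re :=
    Complex.continuous_re.comp continuous_avg.matrix_trace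
  obtain ⟨M₀, -, hM₀⟩ := isCompact_psd.exists_isMaxOn hS0 htc.continuousOn
  set C := (avg w M₀).trace.re with hC
  have hbound : ∀ (κ : ℝ) (M : Matrix ι ι ℂ), M ∈ S → Psd (avg w M - (κ : ℂ) • M) → κ ≤ C := by
    intro κ M hM h
    have h1 := h.trace_nonneg
    rw [trace_sub, trace_smul, hM.2, smul_eq_mul, mul_one, Complex.sub_re, Complex.ofReal_re] at h1
    have h2 : (avg w M).trace.re ≤ C := hM₀ hM
    linarith
  set 𝒦 : Set (ℝ × Matrix ι ι ℂ) :=
    (Set.Icc 0 C ×ˢ S) ∩ {p | Psd (avg w p.2 - (p.1 : ℂ) • p.2)} with h𝒦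
  have hcl : IsClosed {p : ℝ × Matrix ι ι ℂ | Psd (avg w p.2 - (p.1 : ℂ) • p.2)} := by
    refine isClosed_psd.preimage ?_
    exact (continuous_avg.comp continuous_snd).sub
      ((Complex.continuous_ofReal.comp continuous_fst).smul continuous_snd)
  have hcomp : IsCompact 𝒦 := (isCompact_Icc.prod isCompact_psd).inter_right hcl
  have h0𝒦 : ∀ M ∈ S, Psd (avg w M - ((0 : ℝ) : ℂ) • M) := by
    intro M hM
    rw [Complex.ofReal_zero, zero_smul, sub_zero]
    exact hM.1.avg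
  have hne : 𝒦.Nonempty := by
    obtain ⟨M, hM⟩ := hS0
    exact ⟨(0, M), ⟨⟨⟨le_rfl, hbound 0 M hM (h0𝒦 M hM)⟩, hM⟩, h0𝒦 M hM⟩⟩
  obtain ⟨⟨κ, M⟩, ⟨⟨hκ, hM⟩, hΔ⟩, hmax⟩ := hcomp.exists_isMaxOn hne continuous_fst.continuousOn
  simp only at hκ hM hΔ
  refine ⟨κ, M, hM.1, hM.2, ?_⟩
  by_contra hcon
  have hΔ0 : avg w M - (κ : ℂ) • M ≠ 0 := fun h => hcon (sub_eq_zero.1 h)
  obtain ⟨N, hN1, hN2⟩ := improve hirr hΔ hΔ0
  set Ψ : Matrix ι ι ℂ → Matrix ι ι ℂ := fun M => M + avg w M with hΨ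
  set M' := Ψ^[N] M with hM'
  have hlin : ∀ n, Ψ^[n] (avg w M - (κ : ℂ) • M) =
      avg w (Ψ^[n] M) - (κ : ℂ) • (Ψ^[n] M) := by
    intro n
    induction n with
    | zero => rfl
    | succ n ih =>
      rw [Function.iterate_succ_apply', Function.iterate_succ_apply', ih]
      simp only [hΨ]
      rw [avg_sub, avg_smul, avg_add, smul_add]
      abel
  rw [hlin N, ← hM'] at hN1 hN2
  have hM'psd : Psd M' := by
    have h1 : ∀ n, Psd (Ψ^[n] M) := by
      intro n
      induction n with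
      | zero => exact hM.1
      | succ n ih =>
        rw [Function.iterate_succ_apply']
        exact ih.add ih.avg
    exact h1 N
  have hM'0 : M' ≠ 0 := by
    intro h
    rw [h] at hN2
    obtain ⟨i⟩ := (inferInstance : Nonempty ι)
    have h1 := hN2 (Pi.single i 1) (by simp)
    have h2 : avg w (0 : Matrix ι ι ℂ) = 0 := by
      have h3 := avg_smul (w := w) 0 (0 : Matrix ι ι ℂ)
      rwa [zero_smul, zero_smul] at h3
    rw [h2, smul_zero, sub_zero] at h1
    simp [qf] at h1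
  have htr := hM'psd.trace_pos hM'0
  -- a slightly larger eigenvalue
  obtain ⟨t, ht, u, hu0, hu⟩ := exists_touch hN1.1 hN2 (hM'psd.1.neg)
  -- `-M' - t (avg M' - κ M')` is semidefinite, so `t < 0`
  have h1 : qf (-M' - (t : ℂ) • (avg w M' - (κ : ℂ) • M')) u = 0 := by
    unfold qf
    rw [hu, dotProduct_zero, Complex.zero_re]
  have hM'pos : ∃ v, 0 < qf M' v := by
    by_contra hcon
    push Not at hcon
    apply hM'0
    apply hM'psd.eq_zero_of_trace
    apply le_antisymm _ htr.le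
    unfold Matrix.trace
    rw [Complex.re_sum]
    refine Finset.sum_nonpos fun i _ => ?_
    rw [diag_apply, ← qf_single]
    exact hcon _
  obtain ⟨v, hv⟩ := hM'pos
  have hv0 : v ≠ 0 := by
    rintro rfl
    simp [qf] at hv
  have ht0 : t < 0 := by
    have h2 := ht.2 v
    rw [qf_sub_left, qf_smul] at h2
    have h3 : qf (-M') v = -qf M' v := by
      unfold qf
      rw [neg_mulVec, dotProduct_neg, Complex.neg_re]
    rw [h3] at h2
    have h4 := hN2 v hv0
    by_contra hcon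
    push Not at hcon
    have h5 := mul_nonneg hcon h4.le
    linarith
  have hbig : Psd (avg w M' - ((κ + (-t)⁻¹ : ℝ) : ℂ) • M') := by
    have h2 := ht.smul (c := (-t)⁻¹) (by
      rw [inv_nonneg]
      linarith)
    have h3 : (((-t)⁻¹ : ℝ) : ℂ) • (-M' - (t : ℂ) • (avg w M' - (κ : ℂ) • M')) =
        avg w M' - ((κ + (-t)⁻¹ : ℝ) : ℂ) • M' := by
      have h4 : (((-t)⁻¹ : ℝ) : ℂ) * (t : ℂ) = -1 := by
        push_cast
        have h5 : (t : ℂ) ≠ 0 := by exact_mod_cast ht0.ne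
        field_simp
      rw [smul_sub, smul_smul, h4, smul_neg, neg_one_smul, Complex.ofReal_add, add_smul]
      abel
    rw [h3] at h2
    exact h2
  -- normalize
  set s := M'.trace.re with hs
  have hst : M'.trace = (s : ℂ) := by
    have h2 : star M'.trace = M'.trace := by
      rw [← trace_conjTranspose, hM'psd.1.eq]
    exact (Complex.conj_eq_iff_re.1 h2).symm
  set M'' := ((s⁻¹ : ℝ) : ℂ) • M' with hM''
  have hM''S : M'' ∈ S := by
    refine ⟨hM'psd.smul (by positivity), ?_⟩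
    rw [hM'', trace_smul, hst, smul_eq_mul, ← Complex.ofReal_mul, inv_mul_cancel₀ htr.ne',
      Complex.ofReal_one]
  have hbig' : Psd (avg w M'' - ((κ + (-t)⁻¹ : ℝ) : ℂ) • M'') := by
    have h2 := hbig.smul (c := s⁻¹) (by positivity)
    have h3 : ((s⁻¹ : ℝ) : ℂ) • (avg w M' - ((κ + (-t)⁻¹ : ℝ) : ℂ) • M') =
        avg w M'' - ((κ + (-t)⁻¹ : ℝ) : ℂ) • M'' := by
      rw [hM'', avg_smul, smul_sub, smul_comm]
    rw [h3] at h2
    exact h2
  have h6 : κ + (-t)⁻¹ ≤ C := hbound _ _ hM''S hbig'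
  have hinv : 0 < (-t)⁻¹ := by
    rw [inv_pos]
    linarith
  have h7 : κ + (-t)⁻¹ ≤ κ := hmax (show ((κ + (-t)⁻¹, M'') : ℝ × Matrix ι ι ℂ) ∈ 𝒦 from
    ⟨⟨⟨by linarith [hκ.1], h6⟩, hM''S⟩, hbig'⟩)
  linarith

end avg

/-- **An irreducible Lie algebra of matrices which preserves an indefinite hermitian form contains
elements with positive trace of the square.** -/
theorem exists_trace_pos [Nonempty ι] (h : LieData 𝔥 H) {u v : ι → ℂ} (hu : 0 < qf H u)
    (hv : qf H v < 0) (hdet : IsUnit H) : ∃ X ∈ 𝔥, 0 < tf X X := by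
  by_contra hcon
  push Not at hcon
  obtain ⟨d, w, hw, hexp⟩ := exists_onb h.nd hcon
  have hirr : Irr w := by
    intro N hN
    refine h.irr N fun X hX u hu => ?_
    rw [hexp X hX, neg_mulVec, sum_mulVec]
    refine N.neg_mem (N.sum_mem fun i _ => ?_)
    rw [smul_mulVec]
    have h1 : ∀ (r : ℝ) (x : ι → ℂ), r • x = (r : ℂ) • x := fun r x => by
      funext i
      simp
    rw [h1]
    exact N.smul_mem _ (hN i u hu)
  obtain ⟨κ, M, hM, htr, hMκ⟩ := exists_eigenvector hirr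
  have hM0 : M ≠ 0 := by
    rintro rfl
    rw [trace_zero] at htr
    exact zero_ne_one htr
  have hpos : ∀ u, u ≠ 0 → 0 < qf M u := by
    intro u hu
    refine lt_of_le_of_ne (hM.2 u) fun h1 => hM0 ?_
    exact eq_zero_of_ker hirr hM hMκ hu (hM.ker h1.symm)
  -- `M` is invariant
  have hinv : ∀ X ∈ 𝔥, Xᴴ * M + M * X = 0 := by
    intro X hX
    have hherm : (Xᴴ * M + M * X).IsHermitian := by
      unfold Matrix.IsHermitian
      rw [conjTranspose_add, conjTranspose_mul, conjTranspose_mul, conjTranspose_conjTranspose,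
        hM.1.eq, add_comm]
    obtain ⟨t, ht, z, hz0, hz⟩ := exists_touch hM.1 hpos hherm
    have h1 : avg w (Xᴴ * M + M * X) = (κ : ℂ) • (Xᴴ * M + M * X) := by
      rw [avg_equivariant h.br hw hexp hX, hMκ, Matrix.mul_smul, Matrix.smul_mul, smul_add]
    have h2 : Xᴴ * M + M * X - (t : ℂ) • M = 0 := by
      refine eq_zero_of_ker hirr ht (κ := κ) ?_ hz0 hz
      rw [avg_sub, avg_smul, h1, hMκ, smul_sub, smul_comm]
    rw [sub_eq_zero] at h2
    -- the trace
    have hMu : IsUnit M := by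
      rw [isUnit_iff_isUnit_det, isUnit_iff_ne_zero]
      intro h3
      obtain ⟨z, hz0, hz⟩ := exists_mulVec_eq_zero_iff.2 h3
      have h4 := hpos z hz0
      unfold qf at h4
      rw [hz, dotProduct_zero, Complex.zero_re] at h4
      exact lt_irrefl _ h4
    obtain ⟨Mi, hMinv, hinvM⟩ : ∃ Mi : Matrix ι ι ℂ, M * Mi = 1 ∧ Mi * M = 1 := by
      obtain ⟨M', hM'⟩ := hMu
      exact ⟨(M'⁻¹ : (Matrix ι ι ℂ)ˣ), by rw [← hM']; exact M'.mul_inv,
        by rw [← hM']; exact M'.inv_mul⟩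
    obtain ⟨Hi, hHinv, hinvH⟩ : ∃ Hi : Matrix ι ι ℂ, H * Hi = 1 ∧ Hi * H = 1 := by
      obtain ⟨H', hH'⟩ := hdet
      exact ⟨(H'⁻¹ : (Matrix ι ι ℂ)ˣ), by rw [← hH']; exact H'.mul_inv,
        by rw [← hH']; exact H'.inv_mul⟩
    have e1 : Xᴴ.trace + X.trace = 0 := by
      have h3 := congrArg (fun A => (Hi * A).trace) (h.skew X hX)
      simp only [Matrix.mul_add, Matrix.mul_zero, trace_zero, trace_add] at h3
      rw [← Matrix.mul_assoc, trace_mul_comm, ← Matrix.mul_assoc, hHinv, Matrix.one_mul,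
        ← Matrix.mul_assoc, hinvH, Matrix.one_mul] at h3
      exact h3
    have e2 : Xᴴ.trace + X.trace = (t : ℂ) * Fintype.card ι := by
      have h3 := congrArg (fun A => (Mi * A).trace) h2
      simp only [Matrix.mul_add, Matrix.mul_smul, trace_smul, trace_add] at h3
      rw [← Matrix.mul_assoc, trace_mul_comm, ← Matrix.mul_assoc, hMinv, Matrix.one_mul,
        ← Matrix.mul_assoc, hinvM, Matrix.one_mul, trace_one, smul_eq_mul] at h3
      exact h3
    have e3 : (t : ℂ) = 0 := by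
      rw [e1] at e2
      exact (mul_eq_zero.1 e2.symm).resolve_right (by
        exact_mod_cast Fintype.card_ne_zero)
    rw [h2, e3, zero_smul]
  obtain ⟨t, ht, z, hz0, hz⟩ := exists_touch hM.1 hpos h.herm
  have h1 : H - (t : ℂ) • M = 0 := by
    let N : Submodule ℂ (ι → ℂ) := LinearMap.ker (H - (t : ℂ) • M).mulVecLin
    have hN : ∀ u, u ∈ N ↔ (H - (t : ℂ) • M) *ᵥ u = 0 := fun u => Iff.rfl
    have hst : ∀ X ∈ 𝔥, ∀ u ∈ N, X *ᵥ u ∈ N := by
      intro X hX u hu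
      rw [hN] at hu ⊢
      have h2 : (H - (t : ℂ) • M) * X = -(Xᴴ * (H - (t : ℂ) • M)) := by
        rw [← add_eq_zero_iff_eq_neg, Matrix.sub_mul, Matrix.mul_sub, Matrix.smul_mul,
          Matrix.mul_smul]
        have h3 := h.skew X hX
        have h4 := hinv X hX
        have h5 : H * X - (t : ℂ) • (M * X) + (Xᴴ * H - (t : ℂ) • (Xᴴ * M)) =
            (Xᴴ * H + H * X) - (t : ℂ) • (Xᴴ * M + M * X) := by
          rw [smul_add]
          abel
        rw [h5, h3, h4, smul_zero, sub_zero]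
      rw [mulVec_mulVec, h2, neg_mulVec, ← mulVec_mulVec, hu, mulVec_zero, neg_zero]
    rcases h.irr N hst with h1 | h1
    · have h2 := (hN z).2 hz
      rw [h1, Submodule.mem_bot] at h2
      exact absurd h2 hz0
    · ext i j
      have h2 : Pi.single j 1 ∈ N := by
        rw [h1]
        trivial
      rw [hN, mulVec_single_one] at h2
      exact congrFun h2 i
  rw [sub_eq_zero] at h1
  rw [h1, qf_smul] at hu hv
  have h2 := hM.2 u
  have h3 := hM.2 v
  rcases le_or_gt t 0 with h4 | h4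
  · have h5 : t * qf M u ≤ 0 := mul_nonpos_of_nonpos_of_nonneg h4 h2
    linarith
  · have h5 : 0 ≤ t * qf M v := mul_nonneg h4.le h3
    linarith

end Pool.Agent.W5h86.LZ
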