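import Mathlib

set_option autoImplicit false

/-!
# Positive semidefinite hermitian forms
-/

open Matrix

namespace Pool.Agent.W5h86.LZ

variable {ι : Type} [Fintype ι]

/-- the quadratic form of a hermitian matrix -/
def qf (M : Matrix ι ι ℂ) (u : ι → ℂ) : ℝ := (star u ⬝ᵥ (M *ᵥ u)).re

/-- positive semidefinite hermitian matrices -/
def Psd (M : Matrix ι ι ℂ) : Prop := M.IsHermitian ∧ ∀ u, 0 ≤ qf M u

lemma herm_swap {M : Matrix ι ι ℂ} (hM : M.IsHermitian) (u v : ι → ℂ) :
    star v ⬝ᵥ (M *ᵥ u) = star (star u ⬝ᵥ (M *ᵥ v)) := by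
  rw [Matrix.star_dotProduct, star_mulVec, hM.eq, ← dotProduct_mulVec]

lemma qf_add {M : Matrix ι ι ℂ} (hM : M.IsHermitian) (u v : ι → ℂ) (t : ℝ) :
    qf M (u + (t : ℂ) • v) = qf M u + 2 * t * (star v ⬝ᵥ (M *ᵥ u)).re + t ^ 2 * qf M v := by
  unfold qf
  have h1 := congrArg Complex.re (herm_swap hM u v)
  rw [Complex.star_def, Complex.conj_re] at h1
  have hs : star (t : ℂ) = (t : ℂ) := Complex.conj_ofReal t
  rw [star_add, star_smul, hs, mulVec_add, mulVec_smul, add_dotProduct, dotProduct_add,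
    dotProduct_add, smul_dotProduct, smul_dotProduct, dotProduct_smul, dotProduct_smul]
  simp only [Complex.add_re, smul_eq_mul, Complex.mul_re, Complex.ofReal_re, Complex.ofReal_im,
    Complex.mul_im, zero_mul, sub_zero, add_zero]
  rw [← h1]
  ring

lemma dot_self_nonneg (w : ι → ℂ) : 0 ≤ (star w ⬝ᵥ w).re := by
  unfold dotProduct
  rw [Complex.re_sum]
  refine Finset.sum_nonneg fun i _ => ?_
  rw [Pi.star_apply, Complex.star_def, ← Complex.normSq_eq_conj_mul_self, Complex.ofReal_re]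
  exact Complex.normSq_nonneg _

lemma eq_zero_of_dot_self {w : ι → ℂ} (h : (star w ⬝ᵥ w).re = 0) : w = 0 := by
  unfold dotProduct at h
  rw [Complex.re_sum] at h
  have h1 : ∀ i ∈ Finset.univ, 0 ≤ (star w i * w i).re := by
    intro i _
    rw [Pi.star_apply, Complex.star_def, ← Complex.normSq_eq_conj_mul_self, Complex.ofReal_re]
    exact Complex.normSq_nonneg _
  rw [Finset.sum_eq_zero_iff_of_nonneg h1] at h
  funext i
  have h2 := h i (Finset.mem_univ i)
  rw [Pi.star_apply, Complex.star_def, ← Complex.normSq_eq_conj_mul_self, Complex.ofReal_re,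
    Complex.normSq_eq_zero] at h2
  exact h2

/-- The kernel of a positive semidefinite form. -/
lemma Psd.ker {M : Matrix ι ι ℂ} (hM : Psd M) {u : ι → ℂ} (h : qf M u = 0) : M *ᵥ u = 0 := by
  set w := M *ᵥ u with hw
  apply eq_zero_of_dot_self
  set α := (star w ⬝ᵥ w).re with hα
  set β := qf M w with hβ
  have h1 : ∀ t : ℝ, 0 ≤ 2 * t * α + t ^ 2 * β := by
    intro t
    have h2 := hM.2 (u + (t : ℂ) • w)
    rw [qf_add hM.1, h, zero_add, ← hw, ← hα, ← hβ] at h2
    exact h2
  have hα0 : 0 ≤ α := dot_self_nonneg w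
  have hβ0 : 0 ≤ β := hM.2 w
  by_contra hne
  have hpos : 0 < α := lt_of_le_of_ne hα0 (Ne.symm hne)
  have h2 := h1 (-(α / (β + 1)))
  have h3 : 2 * -(α / (β + 1)) * α + (-(α / (β + 1))) ^ 2 * β =
      -(α ^ 2 * (β + 2)) / (β + 1) ^ 2 := by
    field_simp
    ring
  rw [h3] at h2
  have h4 : 0 < α ^ 2 * (β + 2) / (β + 1) ^ 2 := by positivity
  rw [neg_div] at h2
  linarith

lemma Psd.add {M N : Matrix ι ι ℂ} (hM : Psd M) (hN : Psd N) : Psd (M + N) := by
  refine ⟨hM.1.add hN.1, fun u => ?_⟩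
  have h1 := hM.2 u
  have h2 := hN.2 u
  unfold qf at *
  rw [add_mulVec, dotProduct_add, Complex.add_re]
  linarith

lemma qf_smul (c : ℝ) (M : Matrix ι ι ℂ) (u : ι → ℂ) : qf ((c : ℂ) • M) u = c * qf M u := by
  unfold qf
  rw [smul_mulVec, dotProduct_smul, smul_eq_mul, Complex.mul_re, Complex.ofReal_re,
    Complex.ofReal_im, zero_mul, sub_zero]

lemma qf_add_left (M N : Matrix ι ι ℂ) (u : ι → ℂ) : qf (M + N) u = qf M u + qf N u := by
  unfold qf
  rw [add_mulVec, dotProduct_add, Complex.add_re]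

lemma qf_sub_left (M N : Matrix ι ι ℂ) (u : ι → ℂ) : qf (M - N) u = qf M u - qf N u := by
  unfold qf
  rw [sub_mulVec, dotProduct_sub, Complex.sub_re]

lemma qf_sum {κ : Type} (s : Finset κ) (M : κ → Matrix ι ι ℂ) (u : ι → ℂ) :
    qf (∑ i ∈ s, M i) u = ∑ i ∈ s, qf (M i) u := by
  classical
  induction s using Finset.induction_on with
  | empty => simp [qf]
  | insert a s ha ih => rw [Finset.sum_insert ha, Finset.sum_insert ha, qf_add_left, ih]

omit [Fintype ι] in
lemma isHermitian_smul {M : Matrix ι ι ℂ} (hM : M.IsHermitian) (c : ℝ) :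
    ((c : ℂ) • M).IsHermitian := by
  unfold Matrix.IsHermitian
  rw [conjTranspose_smul, hM.eq]
  congr 1
  exact Complex.conj_ofReal c

lemma Psd.smul {M : Matrix ι ι ℂ} (hM : Psd M) {c : ℝ} (hc : 0 ≤ c) : Psd ((c : ℂ) • M) := by
  refine ⟨isHermitian_smul hM.1 c, fun u => ?_⟩
  rw [qf_smul]
  exact mul_nonneg hc (hM.2 u)

lemma qf_conj (A M : Matrix ι ι ℂ) (u : ι → ℂ) : qf (Aᴴ * M * A) u = qf M (A *ᵥ u) := by
  unfold qf
  rw [Matrix.mul_assoc, ← mulVec_mulVec, ← mulVec_mulVec, star_mulVec, ← dotProduct_mulVec]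

lemma Psd.conj {M : Matrix ι ι ℂ} (hM : Psd M) (A : Matrix ι ι ℂ) : Psd (Aᴴ * M * A) := by
  refine ⟨?_, fun u => ?_⟩
  · unfold Matrix.IsHermitian
    rw [conjTranspose_mul, conjTranspose_mul, conjTranspose_conjTranspose, hM.1.eq,
      Matrix.mul_assoc]
  · rw [qf_conj]
    exact hM.2 _

lemma Psd.zero : Psd (0 : Matrix ι ι ℂ) := by
  refine ⟨Matrix.isHermitian_zero, fun u => ?_⟩
  simp [qf]

lemma Psd.sum {κ : Type} (s : Finset κ) {M : κ → Matrix ι ι ℂ} (h : ∀ i ∈ s, Psd (M i)) :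
    Psd (∑ i ∈ s, M i) := by
  classical
  induction s using Finset.induction_on with
  | empty =>
    rw [Finset.sum_empty]
    exact Psd.zero
  | insert a s ha ih =>
    rw [Finset.sum_insert ha]
    exact (h a (Finset.mem_insert_self _ _)).add
      (ih fun i hi => h i (Finset.mem_insert_of_mem hi))

section dec

variable [DecidableEq ι]

lemma qf_single (M : Matrix ι ι ℂ) (i : ι) : qf M (Pi.single i 1) = (M i i).re := by
  unfold qf
  have h1 : star (Pi.single i 1 : ι → ℂ) = Pi.single i 1 := by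
    rw [Pi.star_single, star_one]
  rw [h1, single_one_dotProduct, mulVec_single_one]
  rfl

lemma Psd.diag_nonneg {M : Matrix ι ι ℂ} (hM : Psd M) (i : ι) : 0 ≤ (M i i).re := by
  rw [← qf_single]
  exact hM.2 _

lemma Psd.trace_nonneg {M : Matrix ι ι ℂ} (hM : Psd M) : 0 ≤ M.trace.re := by
  unfold Matrix.trace
  rw [Complex.re_sum]
  exact Finset.sum_nonneg fun i _ => hM.diag_nonneg i

/-- bound for the entries -/
lemma Psd.norm_le {M : Matrix ι ι ℂ} (hM : Psd M) (i j : ι) : ‖M i j‖ ≤ M.trace.re := by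
  have hdiag : ∀ i, (M i i).re ≤ M.trace.re := by
    intro i
    unfold Matrix.trace
    rw [Complex.re_sum]
    exact Finset.single_le_sum (f := fun i => (M.diag i).re) (fun i _ => hM.diag_nonneg i)
      (Finset.mem_univ i)
  by_cases h0 : M i j = 0
  · rw [h0, norm_zero]
    exact hM.trace_nonneg
  -- the phase
  set z : ℂ := -(star (M i j) / ‖M i j‖) with hz
  have hn : (‖M i j‖ : ℂ) ≠ 0 := by
    exact_mod_cast norm_ne_zero_iff.2 h0
  have hzz : star z * z = 1 := by
    rw [hz, star_neg, star_div₀, star_star, neg_mul_neg, div_mul_div_comm]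
    have h1 : star (‖M i j‖ : ℂ) = ‖M i j‖ := Complex.conj_ofReal _
    rw [h1, Complex.star_def, Complex.mul_conj, Complex.normSq_eq_norm_sq]
    rw [Complex.ofReal_pow, pow_two, div_self (mul_ne_zero hn hn)]
  have hzM : M i j * z = -‖M i j‖ := by
    rw [hz, mul_neg, mul_div_assoc', Complex.star_def, Complex.mul_conj,
      Complex.normSq_eq_norm_sq, Complex.ofReal_pow, pow_two, mul_div_cancel_right₀ _ hn]
  set v : ι → ℂ := Pi.single j z with hv
  set u : ι → ℂ := Pi.single i 1 with hu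
  have h1 := hM.2 (u + ((1 : ℝ) : ℂ) • v)
  rw [qf_add hM.1] at h1
  have e1 : qf M u = (M i i).re := qf_single M i
  have e2 : qf M v = (M j j).re := by
    have h2 : v = z • (Pi.single j 1 : ι → ℂ) := by
      rw [hv, ← Pi.single_smul, smul_eq_mul, mul_one]
    unfold qf
    rw [h2, star_smul, mulVec_smul, smul_dotProduct, dotProduct_smul, smul_smul, hzz, one_smul]
    exact qf_single M j
  have e3 : (star v ⬝ᵥ (M *ᵥ u)).re = -‖M i j‖ := by
    rw [herm_swap hM.1, Complex.star_def, Complex.conj_re]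
    have h2 : star u = u := by rw [hu, Pi.star_single, star_one]
    rw [h2, hu, single_one_dotProduct, hv, mulVec_single, Pi.smul_apply]
    have h3 : (MulOpposite.op z • M.col j) i = M i j * z := rfl
    have h4 : MulOpposite.op z • M.col j i = M i j * z := rfl
    rw [h4, hzM, Complex.neg_re, Complex.ofReal_re]
  rw [e1, e2, e3] at h1
  have h2 := hdiag i
  have h3 := hdiag j
  nlinarith

lemma Psd.eq_zero_of_trace {M : Matrix ι ι ℂ} (hM : Psd M) (h : M.trace.re = 0) : M = 0 := by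
  ext i j
  have h1 := hM.norm_le i j
  rw [h] at h1
  exact norm_le_zero_iff.1 h1

lemma Psd.trace_pos {M : Matrix ι ι ℂ} (hM : Psd M) (h : M ≠ 0) : 0 < M.trace.re :=
  lt_of_le_of_ne hM.trace_nonneg fun h1 => h (hM.eq_zero_of_trace h1.symm)

end dec

/-! ### Compactness -/

lemma continuous_qf (u : ι → ℂ) : Continuous fun M : Matrix ι ι ℂ => qf M u := by
  unfold qf
  exact Complex.continuous_re.comp
    (continuous_const.dotProduct (continuous_id.matrix_mulVec continuous_const))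

lemma isClosed_psd : IsClosed {M : Matrix ι ι ℂ | Psd M} := by
  have h1 : {M : Matrix ι ι ℂ | Psd M} = {M | M.IsHermitian} ∩ ⋂ u, {M | 0 ≤ qf M u} := by
    ext M
    simp [Psd]
  rw [h1]
  refine IsClosed.inter ?_ (isClosed_iInter fun u => isClosed_le continuous_const (continuous_qf u))
  exact isClosed_eq continuous_id.matrix_conjTranspose continuous_id

/-- The positive semidefinite matrices of trace one form a compact set. -/
lemma isCompact_psd [DecidableEq ι] :
    IsCompact {M : Matrix ι ι ℂ | Psd M ∧ M.trace = 1} := by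
  have h1 : IsCompact (Set.univ.pi fun _ : ι => Set.univ.pi fun _ : ι =>
      Metric.closedBall (0 : ℂ) 1) :=
    isCompact_univ_pi fun _ => isCompact_univ_pi fun _ => isCompact_closedBall _ _
  refine h1.of_isClosed_subset ?_ ?_
  · exact IsClosed.inter isClosed_psd (isClosed_eq continuous_id.matrix_trace continuous_const)
  · rintro M ⟨hM, ht⟩
    rw [Set.mem_univ_pi]
    intro i
    rw [Set.mem_univ_pi]
    intro j
    rw [mem_closedBall_zero_iff]
    have h2 := hM.norm_le i j
    rw [ht, Complex.one_re] at h2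
    exact h2

/-- Every hermitian form touches a positive definite form. -/
lemma exists_touch {M B : Matrix ι ι ℂ} (hM : M.IsHermitian) (hpos : ∀ u, u ≠ 0 → 0 < qf M u)
    (hB : B.IsHermitian) [Nonempty ι] :
    ∃ t : ℝ, Psd (B - (t : ℂ) • M) ∧ ∃ u, u ≠ 0 ∧ (B - (t : ℂ) • M) *ᵥ u = 0 := by
  have hc : ∀ N : Matrix ι ι ℂ, Continuous fun u => qf N u := by
    intro N
    unfold qf
    exact Complex.continuous_re.comp ((continuous_star).dotProduct
      (continuous_const.matrix_mulVec continuous_id))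
  have hne : (Metric.sphere (0 : ι → ℂ) 1).Nonempty := by
    refine ⟨fun _ => 1, ?_⟩
    rw [mem_sphere_zero_iff_norm]
    simp
  have hs0 : ∀ u ∈ Metric.sphere (0 : ι → ℂ) 1, u ≠ 0 := by
    intro u hu h
    rw [h, mem_sphere_zero_iff_norm, norm_zero] at hu
    exact zero_ne_one hu
  obtain ⟨u₀, hu₀, hmin⟩ := (isCompact_sphere (0 : ι → ℂ) 1).exists_isMinOn hne
    (f := fun u => qf B u / qf M u)
    (((hc B).continuousOn).div ((hc M).continuousOn) fun u hu => (hpos u (hs0 u hu)).ne')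
  set t := qf B u₀ / qf M u₀ with ht
  have hq : ∀ u, qf (B - (t : ℂ) • M) u = qf B u - t * qf M u := by
    intro u
    rw [qf_sub_left, qf_smul]
  have hscale : ∀ (N : Matrix ι ι ℂ) (c : ℝ) (u : ι → ℂ), qf N ((c : ℂ) • u) = c ^ 2 * qf N u := by
    intro N c u
    unfold qf
    have hs : star (c : ℂ) = (c : ℂ) := Complex.conj_ofReal c
    rw [star_smul, hs, mulVec_smul, smul_dotProduct, dotProduct_smul, smul_eq_mul, smul_eq_mul]
    simp only [Complex.mul_re, Complex.ofReal_re, Complex.ofReal_im, Complex.mul_im]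
    ring
  have hpsd : Psd (B - (t : ℂ) • M) := by
    refine ⟨hB.sub (isHermitian_smul hM t), fun u => ?_⟩
    by_cases hu : u = 0
    · rw [hu]
      simp [qf]
    · have hnu : 0 < ‖u‖ := norm_pos_iff.2 hu
      set v : ι → ℂ := ((‖u‖⁻¹ : ℝ) : ℂ) • u with hv
      have hvs : v ∈ Metric.sphere (0 : ι → ℂ) 1 := by
        rw [mem_sphere_zero_iff_norm, hv, norm_smul, Complex.norm_real, norm_inv, norm_norm,
          inv_mul_cancel₀ hnu.ne']
      have h1 : t ≤ qf B v / qf M v := hmin hvs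
      have h2 := hpos v (hs0 v hvs)
      rw [le_div_iff₀ h2] at h1
      have h3 : 0 ≤ qf (B - (t : ℂ) • M) v := by
        rw [hq]
        linarith
      rw [hv, hscale] at h3
      exact nonneg_of_mul_nonneg_right h3 (by positivity)
  refine ⟨t, hpsd, u₀, hs0 u₀ hu₀, hpsd.ker ?_⟩
  rw [hq, ht, div_mul_cancel₀ _ (hpos u₀ (hs0 u₀ hu₀)).ne', sub_self]

end Pool.Agent.W5h86.LZ
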